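import Pool.Agent.Helper72.EP.Spec2

/-! # CPEEL: a hull path on a cycle -/

namespace ErdPos

open Finset

/-- a connected set which leaves `A` contains an attachment -/
lemma cpeel_exit {V : Type} [DecidableEq V] {G : SimpleGraph V} {C A L : Finset V} (hL : Conn G L)
    (hLC : L ⊆ C) {x y : V} (hx : x ∈ L) (hxA : x ∈ A) (hy : y ∈ L) (hyA : y ∉ A) :
    ∃ w ∈ L, w ∈ A ∧ w ∈ Zt G C A := by
  obtain ⟨u, hu, w, hw, huw⟩ := hL.2 (L ∩ A) inter_subset_left ⟨x, mem_inter.2 ⟨hx, hxA⟩⟩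
    (fun h => hyA (by rw [← h] at hy; exact (mem_inter.1 hy).2))
  rw [mem_inter] at hu
  rw [mem_sdiff, mem_inter] at hw
  have hwA : w ∉ A := fun h => hw.2 ⟨hw.1, h⟩
  exact ⟨u, hu.1, hu.2, mem_Nb.2 ⟨hLC hu.1, fun h => (mem_sdiff.1 h).2 hu.2, w,
    mem_sdiff.2 ⟨hLC hw.1, hwA⟩, huw⟩⟩

/-- one side: a path from `a ∈ A` to `z ∉ A` containing exactly one attachment -/
lemma cpeel_side {V : Type} [DecidableEq V] {G : SimpleGraph V} (PA : PApi G) {C A : Finset V}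
    {a z : V} {S : Finset V} {T : Finset (Sym2 V)} (hP : Pth G a z S T) (hSC : S ⊆ C)
    (haA : a ∈ A) (hzA : z ∉ A)
    (huniq : ∀ p ∈ S, ∀ q ∈ S, p ∈ Zt G C A → q ∈ Zt G C A → p = q) :
    ∃ u, u ∈ Zt G C A ∧ ∃ S1 T1 S2 T2, Pth G a u S1 T1 ∧ Pth G u z S2 T2 ∧ S1 ⊆ A ∧ S2 ∩ A = {u} ∧
      S1 ∪ S2 = S ∧ Disjoint T1 T2 ∧ T1 ∪ T2 = T := by
  have haS := (PA.ends _ _ _ _ hP).1
  have hzS := (PA.ends _ _ _ _ hP).2
  obtain ⟨u, huA, S2, T2, S1, T1, hP2, hP1, hi, hii, hS, hT, hTT⟩ :=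
    PA.first z a S T A hP.symm ⟨a, mem_inter.2 ⟨haS, haA⟩⟩
  have hu2 := (PA.ends _ _ _ _ hP2).2
  have hz2 := (PA.ends _ _ _ _ hP2).1
  have hu1 := (PA.ends _ _ _ _ hP1).1
  have hS2 : S2 ⊆ S := hS ▸ subset_union_left
  have hS1 : S1 ⊆ S := hS ▸ subset_union_right
  have huZ : u ∈ Zt G C A := by
    obtain ⟨w, hw, hwA, hwZ⟩ := cpeel_exit (PA.conn _ _ _ _ hP2) (hS2.trans hSC) hu2 huA hz2 hzA
    have : w ∈ S2 ∩ A := mem_inter.2 ⟨hw, hwA⟩
    rw [hi, mem_singleton] at this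
    rw [← this]
    exact hwZ
  refine ⟨u, huZ, S1, T1, S2, T2, hP1.symm, hP2.symm, ?_, hi, by rw [union_comm, hS], hT.symm,
    by rw [union_comm, hTT]⟩
  intro w hw
  by_contra hwA
  obtain ⟨Sa, Ta, Sb, Tb, hPa, hPb, hii', hSS, -, -⟩ := PA.split _ _ w _ _ hP1 hw
  have hSb : Sb ⊆ S1 := hSS ▸ subset_union_right
  obtain ⟨x, hx, -, hxZ⟩ := cpeel_exit (PA.conn _ _ _ _ hPb) (hSb.trans (hS1.trans hSC))
    (PA.ends _ _ _ _ hPb).2 haA (PA.ends _ _ _ _ hPb).1 hwA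
  have hxu := huniq x (hS1 (hSb hx)) u (hS1 hu1) hxZ huZ
  have hux : u ∈ Sa ∩ Sb := mem_inter.2 ⟨(PA.ends _ _ _ _ hPa).1, hxu ▸ hx⟩
  rw [hii', mem_singleton] at hux
  exact hwA (hux ▸ huA)

theorem st_CPEEL (h1 : ST_PA) (h2 : ST_CA) (_h3 : ST_ROB) (h4 : ST_HUL) : ST_CPEEL := by
  intro V _ _ G F C hC S T a b z hc hSC hrob hab hz hzA
  have PA := h1 V G
  have CA := h2 V G
  obtain ⟨hul1, hul2⟩ := h4 V G F C hC
  obtain ⟨hne, hadj, haS, hbS, hP⟩ := CA.edge a b S T hc hab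
  obtain ⟨hH, haA, hbA⟩ := hul1 a b (hrob a haS) (hrob b hbS) hadj
  set A := cl G F C 5 {a, b} with hAdef
  obtain ⟨-, -, -, -, a5, a6, -, -, -, -, -⟩ := hul2 A hH
  have hza : z ≠ a := fun h => hzA (h ▸ haA)
  have hzb : z ≠ b := fun h => hzA (h ▸ hbA)
  obtain ⟨Sa, Ta, Sb, Tb, hPa, hPb, hi, hSS, hTd, hTT⟩ := PA.split a b z S _ hP hz
  have hSa : Sa ⊆ S := hSS ▸ subset_union_left
  have hSb : Sb ⊆ S := hSS ▸ subset_union_right
  have hzSa : z ∈ Sa := (PA.ends _ _ _ _ hPa).2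
  have hzSb : z ∈ Sb := (PA.ends _ _ _ _ hPb).1
  have hcap : ∀ x, x ∈ Sa → x ∈ Sb → x = z := by
    intro x h h'
    have : x ∈ Sa ∩ Sb := mem_inter.2 ⟨h, h'⟩
    rw [hi] at this
    exact mem_singleton.1 this
  -- one attachment on each side
  obtain ⟨ua, hua, huaA, huaZ⟩ := cpeel_exit (PA.conn _ _ _ _ hPa) (hSa.trans hSC)
    (PA.ends _ _ _ _ hPa).1 haA hzSa hzA
  obtain ⟨ub, hub, hubA, hubZ⟩ := cpeel_exit (PA.conn _ _ _ _ hPb) (hSb.trans hSC)
    (PA.ends _ _ _ _ hPb).2 hbA hzSb hzA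
  have huab : ua ≠ ub := by
    intro h
    have := hcap ua hua (h ▸ hub)
    exact hzA (this ▸ huaA)
  have hZ : Zt G C A = {ua, ub} := by
    symm
    apply eq_of_subset_of_card_le
    · intro x hx
      rw [mem_insert, mem_singleton] at hx
      rcases hx with rfl | rfl
      · exact huaZ
      · exact hubZ
    · rw [a5, card_pair huab]
  have hub' : ub ∉ Sa := fun h => hzA ((hcap ub h hub) ▸ hubA)
  have hua' : ua ∉ Sb := fun h => hzA ((hcap ua hua h) ▸ huaA)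
  have hqa : ∀ p ∈ Sa, p ∈ Zt G C A → p = ua := by
    intro p hp hpZ
    rw [hZ, mem_insert, mem_singleton] at hpZ
    rcases hpZ with h | h
    · exact h
    · exact absurd (h ▸ hp) hub'
  have hqb : ∀ p ∈ Sb, p ∈ Zt G C A → p = ub := by
    intro p hp hpZ
    rw [hZ, mem_insert, mem_singleton] at hpZ
    rcases hpZ with h | h
    · exact absurd (h ▸ hp) hua'
    · exact h
  obtain ⟨u, huZ, Sa1, Ta1, Sa2, Ta2, hPa1, hPa2, hSa1A, hSa2A, hSaa, hTad, hTaa⟩ :=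
    cpeel_side PA hPa (hSa.trans hSC) haA hzA
      (fun p hp q hq hpZ hqZ => (hqa p hp hpZ).trans (hqa q hq hqZ).symm)
  obtain ⟨v, hvZ, Sb1, Tb1, Sb2, Tb2, hPb1, hPb2, hSb1A, hSb2A, hSbb, hTbd, hTbb⟩ :=
    cpeel_side PA hPb.symm (hSb.trans hSC) hbA hzA
      (fun p hp q hq hpZ hqZ => (hqb p hp hpZ).trans (hqb q hq hqZ).symm)
  have hSa1 : Sa1 ⊆ Sa := hSaa ▸ subset_union_left
  have hSa2 : Sa2 ⊆ Sa := hSaa ▸ subset_union_right
  have hSb1 : Sb1 ⊆ Sb := hSbb ▸ subset_union_left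
  have hSb2 : Sb2 ⊆ Sb := hSbb ▸ subset_union_right
  have huSa1 : u ∈ Sa1 := (PA.ends _ _ _ _ hPa1).2
  have hvSb1 : v ∈ Sb1 := (PA.ends _ _ _ _ hPb1).2
  have huu : u = ua := hqa u (hSa1 huSa1) huZ
  have hvv : v = ub := hqb v (hSb1 hvSb1) hvZ
  have huv : u ≠ v := by rw [huu, hvv]; exact huab
  have hZ' : Zt G C A = {u, v} := by rw [hZ, huu, hvv]
  have haSb : a ∉ Sb := fun h => hza (hcap a (PA.ends _ _ _ _ hPa).1 h).symm
  have hbSa : b ∉ Sa := fun h => hzb (hcap b h (PA.ends _ _ _ _ hPb).2).symm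
  -- the hull path
  obtain ⟨hc1, hd1⟩ := PA.concat u a b Sa1 Ta1 {a, b} {s(a, b)} hPa1.symm (PA.edge a b hadj) (by
    intro x hx
    rw [mem_inter, mem_insert, mem_singleton] at hx
    rcases hx.2 with h | h
    · rw [h]; exact mem_singleton_self a
    · exact absurd (hSa1 (h ▸ hx.1)) hbSa)
  obtain ⟨hc2, hd2⟩ := PA.concat u b v _ _ Sb1 Tb1 hc1 hPb1 (by
    intro x hx
    rw [mem_inter, mem_union, mem_insert, mem_singleton] at hx
    rw [mem_singleton]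
    rcases hx.1 with h | h | h
    · exact absurd (hSa1A h) (hcap x (hSa1 h) (hSb1 hx.2) ▸ hzA)
    · exact absurd (hSb1 (h ▸ hx.2)) haSb
    · exact h)
  -- the rest
  obtain ⟨hc3, hd3⟩ := PA.concat u z v Sa2 Ta2 Sb2 Tb2 hPa2 hPb2.symm (by
    intro x hx
    rw [mem_inter] at hx
    rw [mem_singleton]
    exact hcap x (hSa2 hx.1) (hSb2 hx.2))
  have hS1A : Sa1 ∪ {a, b} ∪ Sb1 ⊆ A := by
    intro x hx
    rw [mem_union, mem_union, mem_insert, mem_singleton] at hx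
    rcases hx with (h | h | h) | h
    · exact hSa1A h
    · rw [h]; exact haA
    · rw [h]; exact hbA
    · exact hSb1A h
  have hS2A : (Sa2 ∪ Sb2) ∩ A = {u, v} := by
    rw [union_inter_distrib_right, hSa2A, hSb2A]
    rfl
  refine ⟨u, v, Sa1 ∪ {a, b} ∪ Sb1, Ta1 ∪ {s(a, b)} ∪ Tb1, Sa2 ∪ Sb2, Ta2 ∪ Tb2,
    ⟨hH, hZ', huv, hc2, hS1A⟩, ?_, hc3, hS2A, ?_, ?_, ?_, ?_, ?_⟩
  · exact mem_union_left _ (mem_union_right _ (mem_singleton_self _))
  · exact mem_union_left _ (PA.ends _ _ _ _ hPa2).2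
  · apply subset_antisymm
    · rw [← hS2A]
      intro x hx
      rw [mem_inter] at hx
      exact mem_inter.2 ⟨hx.2, hS1A hx.1⟩
    · intro x hx
      rw [mem_insert, mem_singleton] at hx
      rcases hx with rfl | rfl
      · exact mem_inter.2 ⟨mem_union_left _ (mem_union_left _ huSa1),
          mem_union_left _ (PA.ends _ _ _ _ hPa2).1⟩
      · exact mem_inter.2 ⟨mem_union_right _ hvSb1,
          mem_union_right _ (PA.ends _ _ _ _ hPb2).1⟩
  · apply subset_antisymm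
    · intro x hx
      rw [mem_union, mem_union, mem_union, mem_union, mem_insert, mem_singleton] at hx
      rcases hx with ((h | h | h) | h) | (h | h)
      · exact hSa (hSa1 h)
      · rw [h]; exact haS
      · rw [h]; exact hbS
      · exact hSb (hSb1 h)
      · exact hSa (hSa2 h)
      · exact hSb (hSb2 h)
    · intro x hx
      rw [← hSS, ← hSaa, ← hSbb] at hx
      simp only [mem_union] at hx ⊢
      rcases hx with (h | h) | (h | h)
      · exact Or.inl (Or.inl (Or.inl h))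
      · exact Or.inr (Or.inl h)
      · exact Or.inl (Or.inr h)
      · exact Or.inr (Or.inr h)
  · have hTa : Ta ⊆ T.erase s(a, b) := hTT ▸ subset_union_left
    have hTb : Tb ⊆ T.erase s(a, b) := hTT ▸ subset_union_right
    have hTa1 : Ta1 ⊆ Ta := hTaa ▸ subset_union_left
    have hTa2 : Ta2 ⊆ Ta := hTaa ▸ subset_union_right
    have hTb1 : Tb1 ⊆ Tb := hTbb ▸ subset_union_left
    have hTb2 : Tb2 ⊆ Tb := hTbb ▸ subset_union_right
    rw [Finset.disjoint_left]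
    intro e he he'
    rw [mem_union, mem_union, mem_singleton] at he
    rw [mem_union] at he'
    rcases he with (h | h) | h <;> rcases he' with h' | h'
    · exact Finset.disjoint_left.1 hTad h h'
    · exact Finset.disjoint_left.1 hTd (hTa1 h) (hTb2 h')
    · exact (mem_erase.1 (hTa (hTa2 h'))).1 h
    · exact (mem_erase.1 (hTb (hTb2 h'))).1 h
    · exact Finset.disjoint_left.1 hTd (hTa2 h') (hTb1 h)
    · exact Finset.disjoint_left.1 hTbd h h'
  · have e1 : T = insert s(a, b) (Ta ∪ Tb) := by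
      rw [hTT, insert_erase hab]
    rw [e1, ← hTaa, ← hTbb]
    ext e
    simp only [mem_union, mem_singleton, mem_insert]
    constructor
    · rintro (((h | h) | h) | (h | h))
      · exact Or.inr (Or.inl (Or.inl h))
      · exact Or.inl h
      · exact Or.inr (Or.inr (Or.inl h))
      · exact Or.inr (Or.inl (Or.inr h))
      · exact Or.inr (Or.inr (Or.inr h))
    · rintro (h | ((h | h) | (h | h)))
      · exact Or.inl (Or.inl (Or.inr h))
      · exact Or.inl (Or.inl (Or.inl h))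
      · exact Or.inr (Or.inl h)
      · exact Or.inl (Or.inr h)
      · exact Or.inr (Or.inr h)

end ErdPos
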