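import Pool.Agent.Helper72.EP.Spec3

/-! # CYCL: cycles from cyclic sequences -/

namespace ErdPos

open Finset

lemma cycl_cast_inj {n a b : ℕ} (ha : a < n) (hb : b < n) (h : (a : ZMod n) = (b : ZMod n)) :
    a = b := by
  have h1 := congrArg ZMod.val h
  rwa [ZMod.val_natCast, ZMod.val_natCast, Nat.mod_eq_of_lt ha, Nat.mod_eq_of_lt hb] at h1

lemma cycl_path {V : Type} [DecidableEq V] {G : SimpleGraph V} (PA : PApi G) {n : ℕ}
    (c : ZMod n → V) (hc : Function.Injective c) (hadj : ∀ i, G.Adj (c i) (c (i + 1))) :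
    ∀ k : ℕ, k + 1 ≤ n → Pth G (c 0) (c (k : ZMod n))
      ((range (k + 1)).image (fun j : ℕ => c (j : ZMod n)))
      ((range k).image (fun j : ℕ => s(c (j : ZMod n), c ((j : ZMod n) + 1)))) := by
  intro k
  induction k with
  | zero =>
    intro _
    have := PA.refl (c 0)
    simpa using this
  | succ k ih =>
    intro hk
    have h1 := ih (by omega)
    have h2 := PA.edge (c (k : ZMod n)) (c ((k : ZMod n) + 1)) (hadj _)
    obtain ⟨h3, -⟩ := PA.concat _ _ _ _ _ _ _ h1 h2 (by
      intro x hx
      rw [mem_inter, mem_insert, mem_singleton] at hx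
      rw [mem_singleton]
      rcases hx.2 with h | h
      · exact h
      · exfalso
        obtain ⟨j, hj, hjx⟩ := mem_image.1 hx.1
        rw [mem_range] at hj
        have h4 : c (j : ZMod n) = c ((k + 1 : ℕ) : ZMod n) := by
          rw [hjx, h]
          push_cast
          rfl
        have := cycl_cast_inj (by omega) (by omega) (hc h4)
        omega)
    have h5 : ((k + 1 : ℕ) : ZMod n) = (k : ZMod n) + 1 := by push_cast; rfl
    rw [h5]
    have h6 : (range (k + 1)).image (fun j : ℕ => c (j : ZMod n)) ∪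
        {c (k : ZMod n), c ((k : ZMod n) + 1)} =
        (range (k + 1 + 1)).image (fun j : ℕ => c (j : ZMod n)) := by
      ext x
      rw [mem_union, mem_insert, mem_singleton, mem_image, mem_image]
      constructor
      · rintro (⟨j, hj, rfl⟩ | rfl | rfl)
        · exact ⟨j, by rw [mem_range] at hj ⊢; omega, rfl⟩
        · exact ⟨k, by rw [mem_range]; omega, rfl⟩
        · exact ⟨k + 1, by rw [mem_range]; omega, by rw [h5]⟩
      · rintro ⟨j, hj, rfl⟩
        rw [mem_range] at hj
        rcases Nat.lt_or_ge j (k + 1) with h | h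
        · exact Or.inl ⟨j, mem_range.2 h, rfl⟩
        · have : j = k + 1 := by omega
          rw [this, h5]
          exact Or.inr (Or.inr rfl)
    have h7 : (range k).image (fun j : ℕ => s(c (j : ZMod n), c ((j : ZMod n) + 1))) ∪
        {s(c (k : ZMod n), c ((k : ZMod n) + 1))} =
        (range (k + 1)).image (fun j : ℕ => s(c (j : ZMod n), c ((j : ZMod n) + 1))) := by
      rw [range_add_one, image_insert, insert_eq, union_comm]
    rw [h6, h7] at h3
    exact h3

theorem st_CYCL (h1 : ST_PA) (h2 : ST_CA) : ST_CYCL := by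
  intro V G n hn c hc hadj
  classical
  have PA := h1 V G
  have CA := h2 V G
  haveI : NeZero n := ⟨by omega⟩
  have hp := cycl_path PA c hc hadj (n - 1) (by omega)
  have hlast : ((n - 1 : ℕ) : ZMod n) + 1 = 0 := by
    have : ((n - 1 : ℕ) : ZMod n) + 1 = ((n - 1 + 1 : ℕ) : ZMod n) := by push_cast; rfl
    rw [this, Nat.sub_add_cancel (by omega), ZMod.natCast_self]
  have hadj' : G.Adj (c 0) (c ((n - 1 : ℕ) : ZMod n)) := by
    have := hadj ((n - 1 : ℕ) : ZMod n)
    rw [hlast] at this
    exact this.symm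
  have hq := PA.edge _ _ hadj'
  have hcard := PA.card _ _ _ _ hp
  have hSc : ((range (n - 1 + 1)).image (fun j : ℕ => c (j : ZMod n))).card = n := by
    rw [card_image_of_injOn, card_range]
    · omega
    · intro a ha b hb hab
      rw [coe_range, Set.mem_Iio] at ha hb
      exact cycl_cast_inj (by omega) (by omega) (hc hab)
  obtain ⟨⟨a, p, hpc, -, hpT⟩, -⟩ := CA.mk2 _ _ _ _ _ _ hp hq hadj'.ne inter_subset_right (by
    intro h
    rw [h, card_singleton] at hcard
    omega)
  refine ⟨(range (n - 1)).image (fun j : ℕ => s(c (j : ZMod n), c ((j : ZMod n) + 1))) ∪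
      {s(c 0, c ((n - 1 : ℕ) : ZMod n))}, ⟨a, p, hpc, fun e => ?_⟩, fun e => ?_⟩
  · rw [← hpT, List.mem_toFinset]
  · rw [mem_union, mem_image, mem_singleton]
    constructor
    · rintro (⟨j, -, rfl⟩ | rfl)
      · exact ⟨_, rfl⟩
      · exact ⟨((n - 1 : ℕ) : ZMod n), by rw [hlast, Sym2.eq_swap]⟩
    · rintro ⟨i, rfl⟩
      have hi := ZMod.val_lt i
      have hiv : ((i.val : ℕ) : ZMod n) = i := by rw [ZMod.natCast_val, ZMod.cast_id', id]
      rcases Nat.lt_or_ge i.val (n - 1) with h | h
      · left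
        exact ⟨i.val, mem_range.2 h, by rw [hiv]⟩
      · right
        have h3 : i.val = n - 1 := by omega
        have h4 : i = ((n - 1 : ℕ) : ZMod n) := by rw [← h3, hiv]
        rw [h4, hlast, Sym2.eq_swap]

end ErdPos
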