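import Pool.Agent.Helper72.EP.Spec1

/-! # HAV: the haven of a minimal counterexample -/

namespace ErdPos

open Finset

lemma pk_succ {V : Type} [DecidableEq V] {F : Finset V → Prop} {k : ℕ} {A B W : Finset V}
    (hA : Pk F k A) (hB : Has F B) (hAW : A ⊆ W) (hBW : B ⊆ W) (hd : Disjoint A B) :
    Pk F (k + 1) W := by
  obtain ⟨M, hM, hc⟩ := hA
  obtain ⟨M0, hM0, hM0B⟩ := hB
  refine ⟨Fin.cons M0 M, fun i => ?_, fun v => ?_⟩
  · refine Fin.cases ?_ (fun j => ?_) i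
    · rw [Fin.cons_zero]
      exact ⟨hM0, hM0B.trans hBW⟩
    · rw [Fin.cons_succ]
      exact ⟨(hM j).1, (hM j).2.trans hAW⟩
  · rw [Fin.card_filter_univ_succ]
    simp only [Fin.cons_zero, Fin.cons_succ]
    by_cases hv : v ∈ M0
    · have h1 : (univ.filter (fun i : Fin k => v ∈ M i)) = ∅ := by
        rw [filter_eq_empty_iff]
        intro i _ hi
        exact Finset.disjoint_left.1 hd ((hM i).2 hi) (hM0B hv)
      rw [if_pos hv]
      have h2 : #{i : Fin k | v ∈ M i} = 0 := by rw [h1, card_empty]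
      omega
    · rw [if_neg hv]
      have h2 : #{i : Fin k | v ∈ M i} ≤ 4 := hc v
      omega

theorem hav : ST_HAV := by
  intro V _ _ G F hF N k θ W hN hPk hHt Z hZ
  have hmem : Has F (W \ Z) := by
    by_contra hcon
    apply hHt
    refine ⟨Z, by omega, fun M hM hMW => ?_⟩
    by_contra hn
    push Not at hn
    exact hcon ⟨M, hM, fun v hv => mem_sdiff.2 ⟨hMW hv, hn v hv⟩⟩
  obtain ⟨M0, hM0, hM0W⟩ := hmem
  obtain ⟨x0, hx0⟩ := (hF M0 hM0).1
  obtain ⟨C, hC, hx0C⟩ := exists_comp (G := G) (hM0W hx0)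
  have hM0C : M0 ⊆ C := hC.subset_of_mem (hF M0 hM0) hM0W hx0 hx0C
  refine ⟨C, hC.subset, hC.conn, ⟨M0, hM0, hM0C⟩, fun D hD hDc hDF => ?_⟩
  by_contra hDC
  have hdis : Disjoint D C := by
    by_contra hnd
    rw [Finset.not_disjoint_iff] at hnd
    obtain ⟨x, hx, hxC⟩ := hnd
    exact hDC (hC.subset_of_mem hDc hD hx hxC)
  have hDR : D ⊆ (W \ Z) \ C := fun v hv => mem_sdiff.2 ⟨hD hv, Finset.disjoint_left.1 hdis hv⟩
  have hR : Has F ((W \ Z) \ C) := hDF.mono hDR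
  have hCW : C ⊆ W := hC.subset.trans sdiff_subset
  have hRW : (W \ Z) \ C ⊆ W := sdiff_subset.trans sdiff_subset
  have h1 : Ht F C N := by
    rcases hN C with h | h
    · exact absurd (pk_succ h hR hCW hRW disjoint_sdiff) hPk
    · exact h
  have h2 : Ht F ((W \ Z) \ C) N := by
    rcases hN ((W \ Z) \ C) with h | h
    · exact absurd (pk_succ h ⟨M0, hM0, hM0C⟩ hRW hCW sdiff_disjoint) hPk
    · exact h
  obtain ⟨Z1, hZ1, h1⟩ := h1
  obtain ⟨Z2, hZ2, h2⟩ := h2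
  apply hHt
  refine ⟨Z ∪ (Z1 ∪ Z2), ?_, fun M hM hMW => ?_⟩
  · have g1 := card_union_le Z (Z1 ∪ Z2)
    have g2 := card_union_le Z1 Z2
    omega
  · by_contra hn
    push Not at hn
    have hMZ : M ⊆ W \ Z := fun v hv => mem_sdiff.2 ⟨hMW hv, fun h => hn v hv
      (mem_union_left _ h)⟩
    by_cases hMC : Disjoint M C
    · obtain ⟨v, hv, hvZ⟩ := h2 M hM (fun v hv => mem_sdiff.2 ⟨hMZ hv,
        Finset.disjoint_left.1 hMC hv⟩)
      exact hn v hv (mem_union_right _ (mem_union_right _ hvZ))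
    · rw [Finset.not_disjoint_iff] at hMC
      obtain ⟨x, hx, hxC⟩ := hMC
      obtain ⟨v, hv, hvZ⟩ := h1 M hM (hC.subset_of_mem (hF M hM) hMZ hx hxC)
      exact hn v hv (mem_union_right _ (mem_union_left _ hvZ))

theorem st_HAV : ST_HAV := hav

end ErdPos
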