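import Pool.Agent.Helper72.EP.Spec2

/-! # HU3: two hulls meet only in common attachments -/

namespace ErdPos

open Finset

theorem st_HU3 (h1 : ST_PA) (h2 : ST_ROB) (h3 : ST_HUL) : ST_HU3 := by
  intro V _ _ G F C hC
  have PA := h1 V G
  obtain ⟨rpath, -, -, -⟩ := h2 V G F C hC
  obtain ⟨hul1, hul2⟩ := h3 V G F C hC
  have main : ∀ A A', Hul G F C A → Hul G F C A' → A ≠ A' → ∀ c, Rob G F C c → c ∈ A → c ∈ A' →
      c ∈ Zt G C A := by
    intro A A' hA hA' hne c hc hcA hcA'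
    by_contra hcZ
    obtain ⟨-, -, -, -, -, -, -, a8, -, a10, -⟩ := hul2 A hA
    obtain ⟨b1, -, -, b4, b5, b6, b7, b8, -, b10, -⟩ := hul2 A' hA'
    -- it suffices to find a robust neighbour in `A'`
    suffices hy : ∃ y, G.Adj c y ∧ Rob G F C y ∧ y ∈ A' by
      obtain ⟨y, hcy, hry, hyA'⟩ := hy
      have hyA : y ∈ A := a10 c hcA hcZ y hry.1 hcy
      have e1 := a8 c y hc hry hcy.ne hcA hyA
      have e2 := b8 c y hc hry hcy.ne hcA' hyA'
      exact hne (e1.symm.trans e2)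
    obtain ⟨a', b', ha', hb', hab', hA'eq⟩ := id hA'
    have ha'A : a' ∈ A' := hA'eq ▸ (hul1 a' b' ha' hb' hab').2.1
    have hb'A : b' ∈ A' := hA'eq ▸ (hul1 a' b' ha' hb' hab').2.2
    by_cases hca : c = a'
    · exact ⟨b', hca ▸ hab', hb', hb'A⟩
    by_cases hcb : c = b'
    · exact ⟨a', hcb ▸ hab'.symm, ha', ha'A⟩
    by_cases hcZ' : c ∈ Zt G C A'
    · -- `Zt A' = {c, v'}`
      have hv' : ∃ v', v' ≠ c ∧ Zt G C A' = {c, v'} := by
        obtain ⟨p, q, hpq, hZ⟩ := card_eq_two.1 b5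
        rw [hZ, mem_insert, mem_singleton] at hcZ'
        rcases hcZ' with rfl | rfl
        · exact ⟨q, hpq.symm, hZ⟩
        · exact ⟨p, hpq, by rw [hZ, pair_comm]⟩
      obtain ⟨v', hv'c, hZ⟩ := hv'
      have hv'Z : v' ∈ Zt G C A' := by rw [hZ]; simp
      have hv'A : v' ∈ A' := b6 hv'Z
      have hv'C : v' ∈ C := b1 hv'A
      obtain ⟨x, hx, hxA, hxv, hxc⟩ : ∃ x, Rob G F C x ∧ x ∈ A' ∧ x ≠ v' ∧ x ≠ c := by
        by_cases hav : a' = v'
        · exact ⟨b', hb', hb'A, fun h => hab'.ne (hav.trans h.symm), fun h => hcb h.symm⟩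
        · exact ⟨a', ha', ha'A, hav, fun h => hca h.symm⟩
      have hbt := hC.hav.isBt (Z := {v'}) (by simp)
      have hxb : x ∈ bt G F C {v'} := hx.2 v' hv'C (fun h => hxv h.symm)
      have hsub : C \ A' ⊆ bt G F C {v'} := by
        refine hbt.2.2.2 (C \ A') ?_ b4.2.1 b4.2.2
        intro w hw
        rw [mem_sdiff] at hw ⊢
        refine ⟨hw.1, fun h => hw.2 ?_⟩
        rw [mem_singleton] at h
        rw [h]
        exact hv'A
      obtain ⟨w, hw⟩ := b4.2.1.1
      have hwb := hsub hw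
      set K := (bt G F C {v'} ∩ A').erase c with hK
      have hxK : x ∈ K := mem_erase.2 ⟨hxc, mem_inter.2 ⟨hxb, hxA⟩⟩
      obtain ⟨D, hD, hxD⟩ := exists_comp (G := G) hxK
      have hDK : D ⊆ K := hD.subset
      have hDb : D ⊆ bt G F C {v'} := fun y hy => (mem_inter.1 (mem_erase.1 (hDK hy)).2).1
      have hDA : D ⊆ A' := fun y hy => (mem_inter.1 (mem_erase.1 (hDK hy)).2).2
      obtain ⟨k, hk, k', hk', hkk⟩ := hbt.2.1.2 D hDb hD.nonempty (fun h => by
        rw [← h] at hwb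
        exact (mem_sdiff.1 hw).2 (hDA hwb))
      rw [mem_sdiff] at hk'
      have hk'C : k' ∈ C := (mem_sdiff.1 (hbt.1 hk'.1)).1
      have hkZ : k ∉ Zt G C A' := by
        rw [hZ, mem_insert, mem_singleton, not_or]
        refine ⟨(mem_erase.1 (hDK hk)).1, ?_⟩
        rintro rfl
        have := (mem_sdiff.1 (hbt.1 (hDb hk))).2
        exact this (mem_singleton_self _)
      have hk'A : k' ∈ A' := b10 k (hDA hk) hkZ k' hk'C hkk
      have hk'c : k' = c := by
        by_contra hne'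
        exact hk'.2 (hD.mem_of_adj hk (mem_erase.2 ⟨hne', mem_inter.2 ⟨hk'.1, hk'A⟩⟩) hkk)
      subst hk'c
      have hcon : Conn G (insert k' D) := hD.conn.insert hk hkk
      obtain ⟨S, T, hS, hP⟩ := PA.ofconn _ k' x hcon (mem_insert_self _ _)
        (mem_insert_of_mem hxD)
      obtain ⟨y, S', T', hcy, hP', hcS', hSS, -, -⟩ := PA.step _ _ _ _ hP (fun h => hxc h.symm)
      have hyS' : y ∈ S' := (PA.ends _ _ _ _ hP').1
      have hyS : y ∈ S := by rw [hSS]; exact mem_insert_of_mem hyS'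
      have hyD : y ∈ D := by
        rcases mem_insert.1 (hS hyS) with h | h
        · exact absurd (h ▸ hyS') hcS'
        · exact h
      have hSC : S ⊆ C := by
        intro t ht
        rcases mem_insert.1 (hS ht) with h | h
        · rw [h]; exact hc.1
        · exact b1 (hDA h)
      exact ⟨y, hcy, rpath _ _ _ _ hP hSC (fun h => hxc h.symm) hc hx y hyS, hDA hyD⟩
    · obtain ⟨S, T, hS, hP⟩ := PA.ofconn C c a' hC.conn hc.1 ha'.1
      obtain ⟨y, S', T', hcy, hP', hcS', hSS, -, -⟩ := PA.step _ _ _ _ hP hca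
      have hyS' : y ∈ S' := (PA.ends _ _ _ _ hP').1
      have hyS : y ∈ S := by rw [hSS]; exact mem_insert_of_mem hyS'
      have hry := rpath _ _ _ _ hP hS hca hc ha' y hyS
      exact ⟨y, hcy, hry, b10 c hcA' hcZ' y hry.1 hcy⟩
  refine ⟨main, ?_, ?_⟩
  · rintro A hA x hx ⟨A', hA', hxA'⟩
    by_cases h : A = A'
    · rw [h]; exact hxA'
    · obtain ⟨-, -, -, -, -, b6, b7, -, -, -, -⟩ := hul2 A' hA'
      exact main A A' hA hA' h x (b7 x hxA') hx (b6 hxA')
  · rintro x ⟨A', hA', hxA'⟩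
    obtain ⟨-, -, -, -, -, -, b7, -, -, -, -⟩ := hul2 A' hA'
    exact b7 x hxA'

end ErdPos
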