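import Pool.Agent.Helper72.EP.Spec2

/-! # HU5: two disjoint links around a hull -/

namespace ErdPos

open Finset

theorem st_HU5 (h1 : ST_MENW) (h2 : ST_HUL) : ST_HU5 := by
  intro V _ _ G F C hC A u v hA hZ huv
  obtain ⟨hAC, -, -, hBig, hc2, hZA, -, -, hdis, -, hmin⟩ := (h2 V G F C hC).2 A hA
  classical
  have huZ : u ∈ Zt G C A := by rw [hZ]; simp
  have hvZ : v ∈ Zt G C A := by rw [hZ]; simp
  have huC : u ∈ C := hAC (hZA huZ)
  have hvC : v ∈ C := hAC (hZA hvZ)
  have hbt : IsBt G F C (Zt G C A) (C \ A) := hBig.isBt hC.hav (by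
    have : (Nb G C (C \ A)).card = 2 := hc2
    omega)
  obtain ⟨L, hL, hLd⟩ := h1 V G (C \ A) ((C \ A).filter (fun x => G.Adj u x))
    ((C \ A).filter (fun x => G.Adj v x)) 2 (filter_subset _ _) (filter_subset _ _) (by
    intro U hU hUd
    by_contra hcon
    push Not at hcon
    set S := Nb G (C \ A) U ∪ ((C \ A).filter (fun x => G.Adj u x) \ U) with hS
    have hSC : S ⊆ C \ A := union_subset Nb_subset (sdiff_subset.trans (filter_subset _ _))
    have hScard : ({u, v} ∪ S : Finset V).card ≤ 10 := by
      have g1 := card_union_le ({u, v} : Finset V) S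
      have g2 : ({u, v} : Finset V).card ≤ 2 := card_le_two
      omega
    have hD := hC.hav.isBt hScard
    set D := bt G F C ({u, v} ∪ S) with hDdef
    have hDn : ∀ x ∈ D, x ∈ C ∧ x ≠ u ∧ x ≠ v ∧ x ∉ S := by
      intro x hx
      have := mem_sdiff.1 (hD.1 hx)
      rw [mem_union, mem_insert, mem_singleton, not_or, not_or] at this
      exact ⟨this.1, this.2.1.1, this.2.1.2, this.2.2⟩
    have hDA : D ⊆ C \ A := by
      refine hbt.2.2.2 D ?_ hD.2.1 hD.2.2.1
      intro x hx
      obtain ⟨g1, g2, g3, g4⟩ := hDn x hx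
      rw [mem_sdiff, hZ]
      exact ⟨g1, by simp [g2, g3]⟩
    have hDdA : Disjoint D A := by
      rw [Finset.disjoint_left]
      exact fun x hx hxA => (mem_sdiff.1 (hDA hx)).2 hxA
    -- `D` is inside or outside `U`
    have hcut : D ⊆ U ∨ Disjoint D U := by
      by_contra hc
      push Not at hc
      obtain ⟨hc1, hc2⟩ := hc
      rw [Finset.not_disjoint_iff] at hc2
      obtain ⟨x, hx, hxU⟩ := hc2
      obtain ⟨p, hp, w, hw, hpw⟩ := hD.2.1.2 (D ∩ U) inter_subset_left ⟨x, mem_inter.2 ⟨hx, hxU⟩⟩
        (fun h => hc1 (by rw [← h]; exact inter_subset_right))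
      rw [mem_sdiff, mem_inter] at hw
      have hwU : w ∉ U := fun h => hw.2 ⟨hw.1, h⟩
      exact (hDn w hw.1).2.2.2 (mem_union_left _ (mem_Nb.2 ⟨hDA hw.1, hwU, p,
        (mem_inter.1 hp).2, hpw.symm⟩))
    have hNb : Nb G C D ⊆ {u, v} ∪ S := hD.Nb_subset
    -- one of `u`, `v` is not adjacent to `D`
    have hNcard : (Nb G C D).card ≤ 1 + S.card := by
      rcases hcut with hc | hc
      · have h3 : Nb G C D ⊆ {u} ∪ S := by
          intro x hx
          have h4 := hNb hx
          rw [mem_union, mem_insert, mem_singleton] at h4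
          rcases h4 with (h4 | h4) | h4
          · rw [h4]; simp
          · exfalso
            rw [h4] at hx
            obtain ⟨-, -, y, hy, hvy⟩ := mem_Nb.1 hx
            exact Finset.disjoint_left.1 hUd (hc hy) (mem_filter.2 ⟨hDA hy, hvy⟩)
          · exact mem_union_right _ h4
        have h5 := card_le_card h3
        have h6 := card_union_le ({u} : Finset V) S
        simp only [card_singleton] at h6
        omega
      · have h3 : Nb G C D ⊆ {v} ∪ S := by
          intro x hx
          have h4 := hNb hx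
          rw [mem_union, mem_insert, mem_singleton] at h4
          rcases h4 with (h4 | h4) | h4
          · exfalso
            rw [h4] at hx
            obtain ⟨-, -, y, hy, huy⟩ := mem_Nb.1 hx
            exact (hDn y hy).2.2.2 (mem_union_right _ (mem_sdiff.2 ⟨mem_filter.2 ⟨hDA hy, huy⟩,
              Finset.disjoint_left.1 hc hy⟩))
          · rw [h4]; simp
          · exact mem_union_right _ h4
        have h5 := card_le_card h3
        have h6 := card_union_le ({v} : Finset V) S
        simp only [card_singleton] at h6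
        omega
    have hsub := hmin D hD.big hDdA (by omega)
    have hS0 : S = ∅ := by
      rw [eq_empty_iff_forall_notMem]
      intro x hx
      exact (hDn x (hsub (hSC hx))).2.2.2 hx
    have hDeq : D = C \ A := subset_antisymm hDA hsub
    rw [hS0, card_empty, hDeq] at hNcard
    have : (Nb G C (C \ A)).card = 2 := hc2
    omega)
  obtain ⟨g1, g2, g3, g4⟩ := hL 0
  obtain ⟨k1, k2, k3, k4⟩ := hL 1
  have hex : ∀ {x : V} {M : Finset V}, (M ∩ (C \ A).filter (fun y => G.Adj x y)).Nonempty →
      Ad G x M := by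
    rintro x M ⟨y, hy⟩
    rw [mem_inter, mem_filter] at hy
    exact ⟨y, hy.1, hy.2.2⟩
  exact ⟨L 0, L 1, g1, k1, hLd 0 1 (by decide), g2, k2, hex g3, hex g4, hex k3, hex k4⟩

end ErdPos
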