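import Pool.Agent.Helper72.EP.Spec2

/-! # HUL: hulls -/

namespace ErdPos

open Finset

section
variable {V : Type} [Fintype V] [DecidableEq V] {G : SimpleGraph V} {F : Finset V → Prop}
  {C : Finset V}

lemma hul_rk_pos (hC : Ctx G F C)
    (r7 : ∀ X, rk G F C 5 X < 5 → ∃ D, Big G F C D ∧ Disjoint D X ∧
      (Nb G C D).card = rk G F C 5 X) {z : V} (hz : z ∈ C) {X : Finset V} (hzX : z ∈ X) :
    1 ≤ rk G F C 5 X := by
  by_contra hcon
  have h0 : rk G F C 5 X = 0 := by omega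
  obtain ⟨D, hD, hDX, hN⟩ := r7 X (by omega)
  rw [h0, card_eq_zero] at hN
  have hDC : D = C := by
    by_contra hne
    obtain ⟨u, hu, w, hw, huw⟩ := hC.conn.2 D hD.1 hD.2.1.1 hne
    rw [mem_sdiff] at hw
    have : w ∈ Nb G C D := mem_Nb.2 ⟨hw.1, hw.2, u, hu, huw.symm⟩
    rw [hN] at this
    exact absurd this (notMem_empty _)
  exact Finset.disjoint_left.1 hDX (hDC ▸ hz) hzX

theorem st_HUL (h1 : ST_RK1) (h2 : ST_RK2) (h3 : ST_ROB) : ST_HUL := by
  intro V _ _ G F C hC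
  obtain ⟨r1, r2, r3, r4, r5, r6, r7⟩ := h1 V G F C 5 hC.hav
  have rk2 := h2 V G F C 5 hC.hav
  obtain ⟨-, -, -, rob2⟩ := h3 V G F C hC
  have hpair : ∀ a b, Rob G F C a → Rob G F C b → ({a, b} : Finset V) ⊆ C := by
    intro a b ha hb v hv
    rw [mem_insert, mem_singleton] at hv
    rcases hv with rfl | rfl
    · exact ha.1
    · exact hb.1
  have hlt : ∀ a b, Rob G F C a → Rob G F C b → a ≠ b → rk G F C 5 {a, b} < 5 := by
    intro a b ha hb hab
    rw [rob2 a b ha hb hab]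
    norm_num
  refine ⟨fun a b ha hb hab => ⟨⟨a, b, ha, hb, hab, rfl⟩, ?_, ?_⟩, ?_⟩
  · exact (rk2 {a, b} (hpair a b ha hb) (hlt a b ha hb hab.ne)).1 (mem_insert_self _ _)
  · exact (rk2 {a, b} (hpair a b ha hb) (hlt a b ha hb hab.ne)).1
      (mem_insert_of_mem (mem_singleton_self _))
  rintro A ⟨a, b, ha, hb, hab, hA⟩
  obtain ⟨c1, c2, c3, c4, c5, c6, c7, c8, c9, c10, c11⟩ :=
    rk2 {a, b} (hpair a b ha hb) (hlt a b ha hb hab.ne)
  rw [← hA] at c1 c2 c3 c4 c5 c6 c7 c8
  rw [rob2 a b ha hb hab.ne] at c2 c5 c7 c8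
  have hAC : A ⊆ C := by
    rw [hA]
    unfold cl
    exact filter_subset _ _
  have hbt : IsBt G F C (Zt G C A) (C \ A) := c4.isBt hC.hav (by rw [c5]; norm_num)
  refine ⟨hAC, c2, c3, c4, c5, c6, ?_, ?_, ?_, ?_, ?_⟩
  · intro z hz
    have hzA : z ∈ A := c6 hz
    have hzC : z ∈ C := hAC hzA
    refine ⟨hzC, fun g hg hgz => ?_⟩
    by_contra hzg
    have hbg := hC.hav.isBt (Z := {g}) (by simp)
    have e1 : rk G F C 5 {z, g} ≤ 1 := by
      refine (r6 {z, g} _ hbg.big ?_).trans ?_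
      · rw [Finset.disjoint_left]
        intro v hv hv'
        rw [mem_insert, mem_singleton] at hv'
        rcases hv' with rfl | rfl
        · exact hzg hv
        · have := hbg.1 hv
          rw [mem_sdiff] at this
          exact this.2 (mem_singleton_self _)
      · have := card_le_card hbg.Nb_subset
        simpa using this
    have e2 : 1 ≤ rk G F C 5 {z} := hul_rk_pos hC r7 hzC (mem_singleton_self z)
    have e3 : rk G F C 5 {z} ≤ rk G F C 5 {z, g} := r3 _ _ (by simp)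
    have e4 : rk G F C 5 {z} = 1 := by omega
    have e5 : rk G F C 5 (insert g {z}) = rk G F C 5 {z} := by
      rw [pair_comm]; omega
    have hgcl : g ∈ cl G F C 5 {z} := by
      unfold cl
      exact mem_filter.2 ⟨hg, e5⟩
    have hcl : cl G F C 5 {z} ⊆ A := by
      obtain ⟨-, -, -, -, -, -, -, -, d9, -, -⟩ := rk2 {z} (by simpa using hzC) (by omega)
      have := d9 {a, b} (hpair a b ha hb) (hlt a b ha hb hab.ne) (by
        rw [← hA]
        simpa using hzA)
      rwa [← hA] at this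
    have hgA : g ∈ A := hcl hgcl
    have hsub : C \ A ⊆ bt G F C {g} := by
      refine hbg.2.2.2 (C \ A) ?_ c4.2.1 c4.2.2
      intro v hv
      rw [mem_sdiff] at hv ⊢
      refine ⟨hv.1, fun h => hv.2 ?_⟩
      rw [mem_singleton] at h
      rw [h]
      exact hgA
    obtain ⟨-, -, y, hy, hzy⟩ := mem_Nb.1 hz
    exact hzg (hbg.mem_of_adj (hsub hy) hzC (by simpa using hgz.symm) hzy.symm)
  · intro c d hc hd hcd hcA hdA
    obtain ⟨-, -, -, -, -, -, -, -, -, d10, -⟩ := rk2 {c, d} (hpair c d hc hd) (hlt c d hc hd hcd)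
    have := (d10 A hAC (by
      intro v hv
      rw [mem_insert, mem_singleton] at hv
      rcases hv with rfl | rfl
      · exact hcA
      · exact hdA) (by rw [c2, rob2 c d hc hd hcd])).2
    rw [← this, c3]
  · intro C' hC' hc hF hd
    have h5 := hbt.2.2.2 C' (fun v hv => mem_sdiff.2 ⟨hC' hv, Finset.disjoint_left.1 hd hv⟩) hc hF
    rw [Finset.disjoint_left]
    intro v hv hvA
    exact (mem_sdiff.1 (h5 hv)).2 hvA
  · intro x hx hxZ y hy hxy
    by_contra hyA
    apply hxZ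
    exact mem_Nb.2 ⟨hAC hx, fun h => (mem_sdiff.1 h).2 hx, y, mem_sdiff.2 ⟨hy, hyA⟩, hxy⟩
  · intro D hD hDA hN
    have hDX : Disjoint D {a, b} := hDA.mono_right c1
    have h5 := r6 {a, b} D hD hDX
    rw [rob2 a b ha hb hab.ne] at h5
    exact c8 D hD hDX (by omega)

end

end ErdPos
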