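import Pool.Agent.Helper72.EP.Spec1

/-! # LNK: linkages between independent sets -/

namespace ErdPos

open Finset

theorem lnk (h1 : ST_RK1) (h2 : ST_MENW) : ST_LNK := by
  intro V _ _ G F W q k hW Y Y' hY hY' hYc hY'c hr hr'
  obtain ⟨r1, -, -, -, -, r6, -⟩ := h1 V G F W q hW
  refine h2 V G W Y Y' k hY hY' (fun U hU hUd => ?_)
  by_contra hcon
  push Not at hcon
  set S := Nb G W U ∪ (Y \ U) with hS
  have hkq : k ≤ q := hr ▸ r1 Y
  have hb := hW.isBt (Z := S) (by omega)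
  have hm : ∀ X, rk G F W q X = k → ∃ v ∈ X, v ∈ bt G F W S := by
    intro X hX
    by_contra hc
    push Not at hc
    have h6 := r6 X _ hb.big (by
      rw [Finset.disjoint_left]
      exact fun v hv hvX => hc v hvX hv)
    have h7 := card_le_card hb.Nb_subset
    omega
  obtain ⟨y, hy, hyb⟩ := hm Y hr
  obtain ⟨y', hy', hyb'⟩ := hm Y' hr'
  have hnS : ∀ v ∈ bt G F W S, v ∈ W ∧ v ∉ S := fun v hv => mem_sdiff.1 (hb.1 hv)
  have hyU : y ∈ U := by
    by_contra hyU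
    exact (hnS y hyb).2 (mem_union_right _ (mem_sdiff.2 ⟨hy, hyU⟩))
  have hyU' : y' ∉ U := fun h => Finset.disjoint_left.1 hUd h hy'
  obtain ⟨u, hu, w, hw, huw⟩ := hb.2.1.2 (bt G F W S ∩ U) inter_subset_left
    ⟨y, mem_inter.2 ⟨hyb, hyU⟩⟩ (fun h => hyU' (by
      rw [← h] at hyb'
      exact (mem_inter.1 hyb').2))
  rw [mem_sdiff, mem_inter] at hw
  have hwU : w ∉ U := fun h => hw.2 ⟨hw.1, h⟩
  exact (hnS w hw.1).2 (mem_union_left _ (mem_Nb.2 ⟨(hnS w hw.1).1, hwU, u, (mem_inter.1 hu).2,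
    huw.symm⟩))

theorem st_LNK (h1 : ST_RK1) (h2 : ST_MENW) : ST_LNK := lnk h1 h2

end ErdPos
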