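import Pool.Agent.Helper72.EP.Spec1

/-! # MENC: Menger's theorem with contracted sets -/

namespace ErdPos

open Finset

section
variable {V : Type} [DecidableEq V] {N : ℕ}

/-- classes of the contraction -/
def cls (A : Fin N → Finset V) : V ⊕ Fin N → Finset V
  | Sum.inl v => {v}
  | Sum.inr j => A j

omit [DecidableEq V] in
lemma cls_inl (A : Fin N → Finset V) (v : V) : cls A (Sum.inl v) = {v} := rfl

omit [DecidableEq V] in
lemma cls_inr (A : Fin N → Finset V) (j : Fin N) : cls A (Sum.inr j) = A j := rfl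

/-- the contracted graph -/
def Ctr (G : SimpleGraph V) (A : Fin N → Finset V) : SimpleGraph (V ⊕ Fin N) where
  Adj x y := x ≠ y ∧ AdjS G (cls A x) (cls A y)
  symm := by
    constructor
    rintro x y ⟨h1, h2⟩
    exact ⟨h1.symm, h2.symm⟩
  loopless := by
    constructor
    rintro x ⟨h, _⟩
    exact h rfl

lemma conn_biUnion {α : Type} [DecidableEq α] {G : SimpleGraph V} {H : SimpleGraph α}
    (c : α → Finset V) (hH : ∀ x y, H.Adj x y → AdjS G (c x) (c y)) {L : Finset α}
    (hL : Conn H L) (hc : ∀ x ∈ L, Conn G (c x)) : Conn G (L.biUnion c) := by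
  obtain ⟨x0, hx0⟩ := hL.1
  obtain ⟨v0, hv0⟩ := (hc x0 hx0).1
  refine ⟨⟨v0, mem_biUnion.2 ⟨x0, hx0, hv0⟩⟩, fun B hB hne hBL => ?_⟩
  by_cases h : ∃ x ∈ L, (B ∩ c x).Nonempty ∧ B ∩ c x ≠ c x
  · obtain ⟨x, hx, h1, h2⟩ := h
    obtain ⟨u, hu, w, hw, huw⟩ := (hc x hx).2 (B ∩ c x) inter_subset_right h1 h2
    rw [mem_sdiff, mem_inter] at hw
    exact ⟨u, (mem_inter.1 hu).1, w, mem_sdiff.2 ⟨mem_biUnion.2 ⟨x, hx, hw.1⟩,
      fun h => hw.2 ⟨h, hw.1⟩⟩, huw⟩
  · push Not at h
    classical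
    have h1 : (L.filter (fun x => c x ⊆ B)).Nonempty := by
      obtain ⟨v, hv⟩ := hne
      obtain ⟨x, hx, hvx⟩ := mem_biUnion.1 (hB hv)
      refine ⟨x, mem_filter.2 ⟨hx, ?_⟩⟩
      have h3 := h x hx ⟨v, mem_inter.2 ⟨hv, hvx⟩⟩
      rw [← h3]
      exact inter_subset_left
    have h2 : L.filter (fun x => c x ⊆ B) ≠ L := by
      intro he
      apply hBL
      refine subset_antisymm hB ?_
      intro v hv
      obtain ⟨x, hx, hvx⟩ := mem_biUnion.1 hv
      rw [← he] at hx
      exact (mem_filter.1 hx).2 hvx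
    obtain ⟨x, hx, y, hy, hxy⟩ := hL.2 _ (filter_subset _ _) h1 h2
    rw [mem_filter] at hx
    rw [mem_sdiff, mem_filter] at hy
    obtain ⟨u, hu, w, hw, huw⟩ := hH x y hxy
    refine ⟨u, hx.2 hu, w, mem_sdiff.2 ⟨mem_biUnion.2 ⟨y, hy.1, hw⟩, fun hwB => ?_⟩, huw⟩
    apply hy.2
    refine ⟨hy.1, ?_⟩
    have h3 := h y hy.1 ⟨w, mem_inter.2 ⟨hwB, hw⟩⟩
    rw [← h3]
    exact inter_subset_left

end

theorem menc (h : ST_MENW) : ST_MENC := by
  intro V _ _ G Z N k A J hA hAd hk
  classical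
  set AJ := J.biUnion A with hAJ
  have hZ : Disjoint Z AJ := by
    rw [Finset.disjoint_left]
    intro z hz hz'
    obtain ⟨j, _, hj⟩ := mem_biUnion.1 hz'
    exact Finset.disjoint_left.1 (hA j).2 hj hz
  let W : Finset (V ⊕ Fin N) := (univ \ AJ).disjSum J
  let A' : Finset (V ⊕ Fin N) := Z.disjSum ∅
  let B' : Finset (V ⊕ Fin N) := (∅ : Finset V).disjSum J
  have hWl : ∀ v, Sum.inl v ∈ W ↔ v ∉ AJ := by intro v; simp [W]
  have hWr : ∀ j, Sum.inr j ∈ W ↔ j ∈ J := by intro v; simp [W]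
  obtain ⟨L, hL, hLd⟩ := h (V ⊕ Fin N) (Ctr G A) W A' B' k
    (by
      rintro (v | j) hv
      · rw [hWl]
        have : v ∈ Z := by simpa [A'] using hv
        exact Finset.disjoint_left.1 hZ this
      · simp [A'] at hv)
    (by
      rintro (v | j) hv
      · simp [B'] at hv
      · rw [hWr]
        simpa [B'] using hv)
    (by
      intro U hU hUB
      have hUl : ∀ j, Sum.inr j ∉ U := by
        intro j hj
        have h1 := (hWr j).1 (hU hj)
        exact Finset.disjoint_left.1 hUB hj (by simp [B', h1])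
      let U0 : Finset V := univ.filter (fun v => Sum.inl v ∈ U)
      have hU0 : ∀ v, v ∈ U0 ↔ Sum.inl v ∈ U := by intro v; simp [U0]
      have h1 := hk U0 (by
        rw [Finset.disjoint_left]
        intro v hv hv'
        exact (hWl v).1 (hU ((hU0 v).1 hv)) hv')
      rw [← card_disjSum] at h1
      refine h1.trans (card_le_card ?_)
      rintro (v | j) hv
      · rw [inl_mem_disjSum, mem_union] at hv
        rw [mem_union]
        rcases hv with hv | hv
        · left
          rw [mem_sdiff, mem_Nb] at hv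
          obtain ⟨⟨_, hvU, w, hw, hvw⟩, hvA⟩ := hv
          refine mem_Nb.2 ⟨(hWl v).2 hvA, fun hh => hvU ((hU0 v).2 hh), Sum.inl w,
            (hU0 w).1 hw, ?_, v, by simp [cls_inl], w, by simp [cls_inl], hvw⟩
          rintro heq
          cases heq
          exact hvU hw
        · right
          rw [mem_sdiff] at hv ⊢
          exact ⟨by simp [A', hv.1], fun hh => hv.2 ((hU0 v).2 hh)⟩
      · rw [inr_mem_disjSum, mem_filter] at hv
        obtain ⟨hj, v, hv⟩ := hv
        rw [mem_inter, mem_Nb] at hv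
        obtain ⟨⟨_, hvU, w, hw, hvw⟩, hvA⟩ := hv
        refine mem_union_left _ (mem_Nb.2 ⟨(hWr j).2 hj, hUl j, Sum.inl w,
            (hU0 w).1 hw, by simp, v, hvA, w, by simp [cls_inl], hvw⟩))
  refine ⟨fun i => (L i).biUnion (cls A), fun i => ⟨?_, ?_, ?_⟩, ?_⟩
  · refine conn_biUnion (H := Ctr G A) (cls A) (fun x y hxy => hxy.2) (hL i).2.1 ?_
    rintro (v | j) _
    · exact conn_singleton v
    · exact (hA j).1
  · obtain ⟨x, hx⟩ := (hL i).2.2.1
    rw [mem_inter] at hx
    rcases x with v | j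
    · have : v ∈ Z := by simpa [A'] using hx.2
      exact ⟨v, mem_inter.2 ⟨mem_biUnion.2 ⟨_, hx.1, by simp [cls_inl]⟩, this⟩⟩
    · have := hx.2
      simp [A'] at this
  · obtain ⟨x, hx⟩ := (hL i).2.2.2
    rw [mem_inter] at hx
    rcases x with v | j
    · have := hx.2
      simp [B'] at this
    · have : j ∈ J := by simpa [B'] using hx.2
      exact ⟨j, this, fun v hv => mem_biUnion.2 ⟨_, hx.1, hv⟩⟩
  · intro i j hij
    rw [Finset.disjoint_left]
    intro v hv hv'
    obtain ⟨x, hx, hvx⟩ := mem_biUnion.1 hv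
    obtain ⟨y, hy, hvy⟩ := mem_biUnion.1 hv'
    have hxy : x ≠ y := by
      rintro rfl
      exact Finset.disjoint_left.1 (hLd i j hij) hx hy
    have hxW := (hL i).1 hx
    have hyW := (hL j).1 hy
    rcases x with a | a <;> rcases y with b | b
    · rw [cls_inl, mem_singleton] at hvx hvy
      exact hxy (by rw [← hvx, ← hvy])
    · rw [cls_inl, mem_singleton] at hvx
      rw [cls_inr] at hvy
      rw [hWl] at hxW
      rw [hWr] at hyW
      exact hxW (mem_biUnion.2 ⟨b, hyW, hvx ▸ hvy⟩)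
    · rw [cls_inl, mem_singleton] at hvy
      rw [cls_inr] at hvx
      rw [hWr] at hxW
      rw [hWl] at hyW
      exact hyW (mem_biUnion.2 ⟨a, hxW, hvy ▸ hvx⟩)
    · rw [cls_inr] at hvx hvy
      exact Finset.disjoint_left.1 (hAd a b (fun h => hxy (by rw [h]))) hvx hvy

theorem st_MENC (h : ST_MENW) : ST_MENC := menc h

end ErdPos
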