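import Pool.Agent.Helper72.EP.Spec1
import Pool.Agent.Helper46.MG.Cut

/-! # MENW: Menger's theorem inside `W`, cut form -/

namespace ErdPos

open Finset

theorem conn_of_cnn {V : Type} [DecidableEq V] {G : SimpleGraph V} {S : Finset V}
    (h : MG.Cnn G S) : Conn G S := by
  refine ⟨h.1, fun B hB hne hBS => ?_⟩
  obtain ⟨x, hx⟩ := hne
  have h2 : ∃ w ∈ S, w ∉ B := by
    by_contra hcon
    push Not at hcon
    exact hBS (subset_antisymm hB hcon)
  obtain ⟨u, _, w, hw, huB, hwB, huw⟩ := h.2 B ⟨x, hB hx, hx⟩ h2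
  exact ⟨u, huB, w, mem_sdiff.2 ⟨hw, hwB⟩, huw⟩

theorem menw : ST_MENW := by
  intro V _ _ G W A B k hA hB h
  obtain ⟨L, hL, hd⟩ := MG.menger_cut G W A B hA k (by
    intro U S hU hUB hS hcl hAS
    refine (h U hU hUB).trans (card_le_card ?_)
    intro v hv
    rcases mem_union.1 hv with hv | hv
    · obtain ⟨hvW, hvU, u, hu, hvu⟩ := mem_Nb.1 hv
      rcases hcl u hu v hvW hvu.symm with h1 | h1
      · exact absurd h1 hvU
      · exact h1
    · rw [mem_sdiff] at hv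
      rcases hAS v hv.1 with h1 | h1
      · exact absurd h1 hv.2
      · exact h1)
  refine ⟨L, fun i => ?_, hd⟩
  obtain ⟨h1, h2, ⟨a, ha, haA⟩, ⟨b, hb, hbB⟩⟩ := hL i
  exact ⟨h1, conn_of_cnn h2, ⟨a, mem_inter.2 ⟨ha, haA⟩⟩, ⟨b, mem_inter.2 ⟨hb, hbB⟩⟩⟩

theorem st_MENW : ST_MENW := menw

end ErdPos
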