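import Pool.Agent.Helper72.EP.Spec1

/-! # RCM: rooted clique minors -/

namespace ErdPos

open Finset

section
variable {V : Type} [Fintype V] [DecidableEq V] {N : ℕ}

/-- the boundary of a cut, in the graph with the `A j`, `j ∈ J`, contracted -/
noncomputable def bd (G : SimpleGraph V) (Z : Finset V) (A : Fin N → Finset V)
    (J : Finset (Fin N)) (U : Finset V) : Finset (V ⊕ Fin N) :=
  ((Nb G univ U \ J.biUnion A) ∪ (Z \ U)).disjSum {j ∈ J | (Nb G univ U ∩ A j).Nonempty}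

variable {G : SimpleGraph V} {Z : Finset V} {A : Fin N → Finset V} {J : Finset (Fin N)}

lemma mem_bd_inl {U : Finset V} {v : V} : Sum.inl v ∈ bd G Z A J U ↔
    v ∉ U ∧ ((Ad G v U ∧ v ∉ J.biUnion A) ∨ v ∈ Z) := by
  unfold bd
  rw [inl_mem_disjSum, mem_union, mem_sdiff, mem_sdiff, mem_Nb]
  simp only [mem_univ, true_and]
  tauto

lemma mem_bd_inr {U : Finset V} {j : Fin N} : Sum.inr j ∈ bd G Z A J U ↔
    j ∈ J ∧ ∃ v ∈ A j, v ∉ U ∧ Ad G v U := by
  unfold bd
  rw [inr_mem_disjSum, mem_filter]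
  constructor
  · rintro ⟨h, v, hv⟩
    rw [mem_inter, mem_Nb] at hv
    exact ⟨h, v, hv.2, hv.1.2⟩
  · rintro ⟨h, v, hv, hvU, hva⟩
    exact ⟨h, v, mem_inter.2 ⟨mem_Nb.2 ⟨mem_univ _, hvU, hva⟩, hv⟩⟩

lemma card_bd {U : Finset V} : (bd G Z A J U).card =
    ((Nb G univ U \ J.biUnion A) ∪ (Z \ U)).card +
        ({j ∈ J | (Nb G univ U ∩ A j).Nonempty} : Finset (Fin N)).card := by
  unfold bd
  rw [card_disjSum]

lemma bd_submod {U U' : Finset V} (hU : Disjoint U (J.biUnion A)) (hU' : Disjoint U' (J.biUnion A)) :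
    (bd G Z A J (U ∪ U')).card + (bd G Z A J (U ∩ U')).card ≤
      (bd G Z A J U).card + (bd G Z A J U').card := by
  have hn : ∀ j ∈ J, ∀ v ∈ A j, v ∉ U ∧ v ∉ U' := by
    intro j hj v hv
    have : v ∈ J.biUnion A := mem_biUnion.2 ⟨j, hj, hv⟩
    exact ⟨fun h => Finset.disjoint_left.1 hU h this, fun h => Finset.disjoint_left.1 hU' h this⟩
  have hAl : ∀ v, Ad G v (U ∩ U') → Ad G v U := fun v h => h.mono inter_subset_left
  have hAr : ∀ v, Ad G v (U ∩ U') → Ad G v U' := fun v h => h.mono inter_subset_right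
  have hAu : ∀ v, Ad G v (U ∪ U') → Ad G v U ∨ Ad G v U' := by
    rintro v ⟨y, hy, hvy⟩
    rcases mem_union.1 hy with h | h
    · exact Or.inl ⟨y, h, hvy⟩
    · exact Or.inr ⟨y, h, hvy⟩
  have h1 : bd G Z A J (U ∪ U') ∪ bd G Z A J (U ∩ U') ⊆ bd G Z A J U ∪ bd G Z A J U' := by
    rintro (v | j) hv
    · rw [mem_union, mem_bd_inl, mem_bd_inl, mem_union, mem_inter] at hv
      rw [mem_union, mem_bd_inl, mem_bd_inl]
      have := hAl v
      have := hAr v
      have := hAu v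
      tauto
    · rw [mem_union, mem_bd_inr, mem_bd_inr] at hv
      rw [mem_union, mem_bd_inr, mem_bd_inr]
      rcases hv with ⟨hj, v, hv, hvU, hva⟩ | ⟨hj, v, hv, hvU, hva⟩
      · rcases hAu v hva with h | h
        · exact Or.inl ⟨hj, v, hv, (hn j hj v hv).1, h⟩
        · exact Or.inr ⟨hj, v, hv, (hn j hj v hv).2, h⟩
      · exact Or.inl ⟨hj, v, hv, (hn j hj v hv).1, hAl v hva⟩
  have h2 : bd G Z A J (U ∪ U') ∩ bd G Z A J (U ∩ U') ⊆ bd G Z A J U ∩ bd G Z A J U' := by
    rintro (v | j) hv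
    · rw [mem_inter, mem_bd_inl, mem_bd_inl, mem_union, mem_inter] at hv
      rw [mem_inter, mem_bd_inl, mem_bd_inl]
      have := hAl v
      have := hAr v
      have := hAu v
      tauto
    · rw [mem_inter, mem_bd_inr, mem_bd_inr] at hv
      rw [mem_inter, mem_bd_inr, mem_bd_inr]
      obtain ⟨-, hj, v, hv, hvU, hva⟩ := hv
      exact ⟨⟨hj, v, hv, (hn j hj v hv).1, hAl v hva⟩, ⟨hj, v, hv, (hn j hj v hv).2, hAr v hva⟩⟩
  have h3 := card_union_add_card_inter (bd G Z A J (U ∪ U')) (bd G Z A J (U ∩ U'))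
  have h4 := card_union_add_card_inter (bd G Z A J U) (bd G Z A J U')
  have h5 := card_le_card h1
  have h6 := card_le_card h2
  omega

/-- one round -/
lemma rcm_step (hA : ∀ i, Conn G (A i) ∧ Disjoint (A i) Z)
    (hAA : ∀ i j, i ≠ j → Disjoint (A i) (A j) ∧ AdjS G (A i) (A j))
    (hsep : ∀ i S U, S.card < Z.card → Disjoint (A i) S → Z \ S ⊆ U → Nb G univ U ⊆ S →
      ¬ Disjoint U (A i)) (m : ℕ) (hm : m < Z.card)
    (hJ : ∀ U, Disjoint U (J.biUnion A) → m ≤ (bd G Z A J U).card) (hJc : 2 * m + 1 ≤ J.card) :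
    ∃ J', J' ⊆ J ∧ J.card ≤ J'.card + m ∧
      ∀ U, Disjoint U (J'.biUnion A) → m + 1 ≤ (bd G Z A J' U).card := by
  classical
  by_cases hc : ∀ U, Disjoint U (J.biUnion A) → m + 1 ≤ (bd G Z A J U).card
  · exact ⟨J, subset_rfl, by omega, hc⟩
  push Not at hc
  obtain ⟨U0, hU0, hU0c⟩ := hc
  obtain ⟨U', hU', hmax⟩ := exists_max_image
    ((univ : Finset (Finset V)).filter
      (fun U => Disjoint U (J.biUnion A) ∧ (bd G Z A J U).card = m)) card
    ⟨U0, by
      rw [mem_filter]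
      refine ⟨mem_univ _, hU0, ?_⟩
      have := hJ U0 hU0
      omega⟩
  rw [mem_filter] at hU'
  obtain ⟨-, hU'd, hU'c⟩ := hU'
  have hsub : ∀ U, Disjoint U (J.biUnion A) → (bd G Z A J U).card = m → U ⊆ U' := by
    intro U hU hUc
    have h1 := bd_submod (G := G) (Z := Z) hU'd hU
    have hd1 : Disjoint (U' ∪ U) (J.biUnion A) := by
      rw [disjoint_union_left]; exact ⟨hU'd, hU⟩
    have h2 := hJ (U' ∪ U) hd1
    have h3 := hJ (U' ∩ U) (hU'd.mono_left inter_subset_left)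
    have h4 := hmax (U' ∪ U) (by
      rw [mem_filter]
      refine ⟨mem_univ _, hd1, ?_⟩
      omega)
    have h5 := eq_of_subset_of_card_le (subset_union_left (s₁ := U') (s₂ := U)) h4
    rw [h5]
    exact subset_union_right
  set JS : Finset (Fin N) := J.filter (fun j => (Sum.inr j : V ⊕ Fin N) ∈ bd G Z A J U') with hJS
  have hJSc : JS.card ≤ m := by
    rw [← hU'c]
    have : JS.card = (JS.image (Sum.inr : Fin N → V ⊕ Fin N)).card :=
      (card_image_of_injective _ Sum.inr_injective).symm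
    rw [this]
    apply card_le_card
    intro x hx
    obtain ⟨j, hj, rfl⟩ := mem_image.1 hx
    exact (mem_filter.1 hj).2
  have hJScard : (J \ JS).card + JS.card = J.card := card_sdiff_add_card_eq_card (filter_subset _ _)
  refine ⟨J \ JS, sdiff_subset, by omega, ?_⟩
  intro U1 hU1
  by_contra hcon
  push Not at hcon
  have hcon' : (bd G Z A (J \ JS) U1).card ≤ m := by omega
  -- no `A j` with `j ∈ JS` is inside `U1`
  have hns : ∀ j ∈ JS, ¬ A j ⊆ U1 := by
    intro j hj hjU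
    have h1 : (J \ JS).card ≤ (bd G Z A (J \ JS) U1).card := by
      have : (J \ JS).card = ((J \ JS).image (Sum.inr : Fin N → V ⊕ Fin N)).card :=
        (card_image_of_injective _ Sum.inr_injective).symm
      rw [this]
      apply card_le_card
      intro x hx
      obtain ⟨i, hi, rfl⟩ := mem_image.1 hx
      have hij : i ≠ j := by
        rintro rfl
        exact (mem_sdiff.1 hi).2 hj
      obtain ⟨a, ha, b, hb, hab⟩ := (hAA i j hij).2
      refine mem_bd_inr.2 ⟨hi, a, ha, fun haU => ?_, b, hjU hb, hab⟩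
      exact Finset.disjoint_left.1 hU1 haU (mem_biUnion.2 ⟨i, hi, ha⟩)
    omega
  set U2 := U1 \ J.biUnion A with hU2
  have hU2d : Disjoint U2 (J.biUnion A) := sdiff_disjoint
  have hU21 : U2 ⊆ U1 := sdiff_subset
  -- the elements `w j`
  have hw : ∀ j : Fin N, ∃ w : V, j ∈ JS → Sum.inr j ∈ bd G Z A J U2 →
      w ∈ A j ∧ w ∉ U1 ∧ Ad G w U1 := by
    intro j
    by_cases h : j ∈ JS ∧ Sum.inr j ∈ bd G Z A J U2
    · obtain ⟨hj, hb⟩ := h
      obtain ⟨_, v, hv, hvU, hva⟩ := mem_bd_inr.1 hb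
      by_cases hv1 : v ∈ U1
      · obtain ⟨a, ha, b, hb, hab⟩ := (hA j).1.2 (A j ∩ U1) inter_subset_left
          ⟨v, mem_inter.2 ⟨hv, hv1⟩⟩ (fun h => hns j hj (by
            rw [← h]; exact inter_subset_right))
        rw [mem_sdiff, mem_inter] at hb
        exact ⟨b, fun _ _ => ⟨hb.1, fun h => hb.2 ⟨hb.1, h⟩, a, (mem_inter.1 ha).2, hab.symm⟩⟩
      · exact ⟨v, fun _ _ => ⟨hv, hv1, hva.mono hU21⟩⟩
    · have hv : ∃ v : V, True := by
        obtain ⟨v, _⟩ := (hA j).1.1
        exact ⟨v, trivial⟩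
      obtain ⟨v, _⟩ := hv
      exact ⟨v, fun h1 h2 => absurd ⟨h1, h2⟩ h⟩
  choose w hw using hw
  have hsd : ∀ j ∈ JS, ∀ v ∈ A j, v ∉ (J \ JS).biUnion A := by
    intro j hj v hv h
    obtain ⟨i, hi, hvi⟩ := mem_biUnion.1 h
    have hij : i ≠ j := by
      rintro rfl
      exact (mem_sdiff.1 hi).2 hj
    exact Finset.disjoint_left.1 (hAA i j hij).1 hvi hv
  have hmono : (J \ JS).biUnion A ⊆ J.biUnion A := biUnion_subset_biUnion_of_subset_left _ sdiff_subset
  -- injection
  let φ : V ⊕ Fin N → V ⊕ Fin N := fun x => match x with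
    | Sum.inl v => Sum.inl v
    | Sum.inr j => if j ∈ JS then Sum.inl (w j) else Sum.inr j
  have hφl : ∀ v, φ (Sum.inl v) = Sum.inl v := fun v => rfl
  have hφr : ∀ j, φ (Sum.inr j) = if j ∈ JS then Sum.inl (w j) else Sum.inr j := fun v => rfl
  have hUv : ∀ v, v ∉ J.biUnion A → v ∉ U2 → v ∉ U1 := by
    intro v h1 h2 h3
    exact h2 (mem_sdiff.2 ⟨h3, h1⟩)
  have hZJ : ∀ v ∈ Z, v ∉ J.biUnion A := by
    intro v hv h
    obtain ⟨i, _, hvi⟩ := mem_biUnion.1 h
    exact Finset.disjoint_left.1 (hA i).2 hvi hv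
  have hlv : ∀ v, Sum.inl v ∈ bd G Z A J U2 → v ∉ J.biUnion A := by
    intro v hv
    rw [mem_bd_inl] at hv
    rcases hv.2 with h | h
    · exact h.2
    · exact hZJ v h
  have hφm : ∀ x ∈ bd G Z A J U2, φ x ∈ bd G Z A (J \ JS) U1 := by
    rintro (v | j) hx
    · rw [hφl, mem_bd_inl]
      have h1 := hlv v hx
      rw [mem_bd_inl] at hx
      refine ⟨hUv v h1 hx.1, ?_⟩
      rcases hx.2 with h | h
      · exact Or.inl ⟨h.1.mono hU21, fun h' => h1 (hmono h')⟩
      · exact Or.inr h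
    · rw [hφr]
      by_cases hj : j ∈ JS
      · rw [if_pos hj, mem_bd_inl]
        obtain ⟨g1, g2, g3⟩ := hw j hj hx
        exact ⟨g2, Or.inl ⟨g3, hsd j hj _ g1⟩⟩
      · rw [if_neg hj]
        obtain ⟨g1, v, g2, g3, g4⟩ := mem_bd_inr.1 hx
        have hjJ : j ∈ J \ JS := mem_sdiff.2 ⟨g1, hj⟩
        refine mem_bd_inr.2 ⟨hjJ, v, g2, fun h => ?_, g4.mono hU21⟩
        exact Finset.disjoint_left.1 hU1 h (mem_biUnion.2 ⟨j, hjJ, g2⟩)
  have hφi : Set.InjOn φ (bd G Z A J U2 : Set (V ⊕ Fin N)) := by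
    rintro (v | j) hx (v' | j') hx' heq
    · rw [hφl, hφl] at heq
      exact heq
    · exfalso
      rw [hφl, hφr] at heq
      by_cases hj : j' ∈ JS
      · rw [if_pos hj] at heq
        obtain ⟨g1, -, -⟩ := hw j' hj hx'
        have : v = w j' := Sum.inl_injective heq
        exact hlv v hx (mem_biUnion.2 ⟨j', (mem_filter.1 hj).1, this ▸ g1⟩)
      · rw [if_neg hj] at heq
        cases heq
    · exfalso
      rw [hφl, hφr] at heq
      by_cases hj : j ∈ JS
      · rw [if_pos hj] at heq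
        obtain ⟨g1, -, -⟩ := hw j hj hx
        have : w j = v' := Sum.inl_injective heq
        exact hlv v' hx' (mem_biUnion.2 ⟨j, (mem_filter.1 hj).1, this ▸ g1⟩)
      · rw [if_neg hj] at heq
        cases heq
    · rw [hφr, hφr] at heq
      by_cases hj : j ∈ JS <;> by_cases hj' : j' ∈ JS
      · rw [if_pos hj, if_pos hj'] at heq
        have h1 : w j = w j' := Sum.inl_injective heq
        obtain ⟨g1, -, -⟩ := hw j hj hx
        obtain ⟨g2, -, -⟩ := hw j' hj' hx'
        by_contra hne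
        have hne' : j ≠ j' := fun h => hne (by rw [h])
        rw [h1] at g1
        exact Finset.disjoint_left.1 (hAA j j' hne').1 g1 g2
      · rw [if_pos hj, if_neg hj'] at heq
        cases heq
      · rw [if_neg hj, if_pos hj'] at heq
        cases heq
      · rw [if_neg hj, if_neg hj'] at heq
        exact heq
  have hcard : (bd G Z A J U2).card = m := by
    have h1 := card_le_card_of_injOn φ hφm hφi
    have h2 := hJ U2 hU2d
    omega
  have hU2U' := hsub U2 hU2d hcard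
  -- the image is everything
  have himg : (bd G Z A J U2).image φ = bd G Z A (J \ JS) U1 := by
    apply eq_of_subset_of_card_le
    · intro x hx
      obtain ⟨y, hy, rfl⟩ := mem_image.1 hx
      exact hφm y hy
    · rw [card_image_of_injOn hφi]
      omega
  have hno : ∀ j, Sum.inr j ∉ bd G Z A (J \ JS) U1 := by
    intro j hj
    rw [← himg] at hj
    obtain ⟨y, hy, hyj⟩ := mem_image.1 hj
    rcases y with v | i
    · rw [hφl] at hyj; cases hyj
    · rw [hφr] at hyj
      by_cases hi : i ∈ JS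
      · rw [if_pos hi] at hyj; cases hyj
      · rw [if_neg hi] at hyj
        have hij : i = j := Sum.inr_injective hyj
        subst hij
        obtain ⟨g1, v, g2, g3, g4⟩ := mem_bd_inr.1 hy
        apply hi
        refine mem_filter.2 ⟨g1, mem_bd_inr.2 ⟨g1, v, g2, fun h => ?_, g4.mono hU2U'⟩⟩
        exact Finset.disjoint_left.1 hU'd h (mem_biUnion.2 ⟨i, g1, g2⟩)
  -- contradiction
  obtain ⟨i, hi⟩ : (J \ JS).Nonempty := by
    rw [← card_pos]; omega
  let S : Finset V := univ.filter (fun v => Sum.inl v ∈ bd G Z A (J \ JS) U1)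
  have hS : ∀ v, v ∈ S ↔ Sum.inl v ∈ bd G Z A (J \ JS) U1 := by intro v; simp [S]
  have hSc : S.card ≤ m := by
    have : S.card = (S.image (Sum.inl : V → V ⊕ Fin N)).card :=
      (card_image_of_injective _ Sum.inl_injective).symm
    rw [this]
    refine (card_le_card ?_).trans hcon'
    intro x hx
    obtain ⟨v, hv, rfl⟩ := mem_image.1 hx
    exact (hS v).1 hv
  refine hsep i S U1 (by omega) ?_ ?_ ?_ ?_
  · rw [Finset.disjoint_left]
    intro v hv hvS
    rw [hS, mem_bd_inl] at hvS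
    rcases hvS.2 with h | h
    · exact h.2 (mem_biUnion.2 ⟨i, hi, hv⟩)
    · exact Finset.disjoint_left.1 (hA i).2 hv h
  · intro v hv
    rw [mem_sdiff] at hv
    by_contra hvU
    exact hv.2 ((hS v).2 (mem_bd_inl.2 ⟨hvU, Or.inr hv.1⟩))
  · intro v hv
    rw [mem_Nb] at hv
    refine (hS v).2 (mem_bd_inl.2 ⟨hv.2.1, Or.inl ⟨hv.2.2, fun h => ?_⟩⟩)
    obtain ⟨j, hj, hvj⟩ := mem_biUnion.1 h
    exact hno j (mem_bd_inr.2 ⟨hj, v, hvj, hv.2.1, hv.2.2⟩)
  · exact hU1.mono_right (subset_biUnion_of_mem A hi)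

end

theorem rcm (h : ST_MENC) : ST_RCM := by
  intro V _ _ G Z N A hN hA hAA hsep
  classical
  have key : ∀ m, m ≤ Z.card → ∃ J : Finset (Fin N), N ≤ J.card + m * Z.card ∧
      ∀ U, Disjoint U (J.biUnion A) → m ≤ (bd G Z A J U).card := by
    intro m
    induction m with
    | zero => exact fun _ => ⟨univ, by simp, fun _ _ => Nat.zero_le _⟩
    | succ m ih =>
      intro hm
      obtain ⟨J, hJc, hJ⟩ := ih (by omega)
      have h1 : m * Z.card + (2 * m + 1) ≤ N := by nlinarith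
      obtain ⟨J', -, hJ'c, hJ'⟩ := rcm_step (G := G) hA hAA hsep m (by omega) hJ (by omega)
      refine ⟨J', ?_, hJ'⟩
      rw [Nat.succ_mul]
      omega
  obtain ⟨J, -, hJ⟩ := key Z.card le_rfl
  obtain ⟨R, hR, hRd⟩ := h V G Z N Z.card A J hA (fun i j hij => (hAA i j hij).1)
    (fun U hU => by rw [← card_bd]; exact hJ U hU)
  choose z hz using fun i => (hR i).2.1
  have hzR : ∀ i, z i ∈ R i := fun i => (mem_inter.1 (hz i)).1
  have hzZ : ∀ i, z i ∈ Z := fun i => (mem_inter.1 (hz i)).2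
  have hzi : Function.Injective z := by
    intro i j hij
    by_contra hne
    have := Finset.disjoint_left.1 (hRd i j hne) (hzR i)
    rw [hij] at this
    exact this (hzR j)
  have hsurj : ∀ v ∈ Z, ∃ i, z i = v := by
    have h1 : univ.image z = Z := by
      apply eq_of_subset_of_card_le
      · intro x hx
        obtain ⟨i, -, rfl⟩ := mem_image.1 hx
        exact hzZ i
      · rw [card_image_of_injective _ hzi, card_univ, Fintype.card_fin]
    intro v hv
    rw [← h1] at hv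
    obtain ⟨i, -, hi⟩ := mem_image.1 hv
    exact ⟨i, hi⟩
  choose ix hix using hsurj
  refine ⟨fun v => if h : v ∈ Z then R (ix v h) else ∅, fun v hv => ?_,
    fun v hv v' hv' hne => ?_⟩
  · simp only [dif_pos hv]
    refine ⟨(hR _).1, ?_⟩
    have := hzR (ix v hv)
    rwa [hix v hv] at this
  · simp only [dif_pos hv, dif_pos hv']
    have hne' : ix v hv ≠ ix v' hv' := by
      intro h
      apply hne
      rw [← hix v hv, ← hix v' hv', h]
    refine ⟨hRd _ _ hne', ?_⟩
    obtain ⟨j, hj, hjR⟩ := (hR (ix v hv)).2.2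
    obtain ⟨j', hj', hjR'⟩ := (hR (ix v' hv')).2.2
    have hjj : j ≠ j' := by
      rintro rfl
      obtain ⟨a, ha⟩ := (hA j).1.1
      exact Finset.disjoint_left.1 (hRd _ _ hne') (hjR ha) (hjR' ha)
    exact (hAA j j' hjj).2.mono hjR hjR'

theorem st_RCM (h : ST_MENC) : ST_RCM := rcm h

end ErdPos
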