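import Pool.Agent.Helper72.EP.Spec2

/-! # ROB: robust vertices -/

namespace ErdPos

open Finset

section
variable {V : Type} [Fintype V] [DecidableEq V] {G : SimpleGraph V} {F : Finset V → Prop}
  {C : Finset V}

omit [Fintype V] in
lemma rob_Nb_empty (hC : Ctx G F C) {D : Finset V} (hD : Big G F C D) (hN : Nb G C D = ∅) :
    D = C := by
  by_contra hne
  obtain ⟨u, hu, w, hw, huw⟩ := hC.conn.2 D hD.1 hD.2.1.1 hne
  rw [mem_sdiff] at hw
  have : w ∈ Nb G C D := mem_Nb.2 ⟨hw.1, hw.2, u, hu, huw.symm⟩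
  rw [hN] at this
  exact absurd this (notMem_empty _)

end

theorem st_ROB (h1 : ST_PA) (h2 : ST_CA) (h3 : ST_RK1) : ST_ROB := by
  intro V _ _ G F C hC
  obtain ⟨-, r2, -, -, -, r6, r7⟩ := h3 V G F C 5 hC.hav
  have PA := h1 V G
  have CA := h2 V G
  have hpath : ∀ a b S T, Pth G a b S T → S ⊆ C → a ≠ b → Rob G F C a → Rob G F C b →
      ∀ x ∈ S, Rob G F C x := by
    intro a b S T hP hS hab ha hb x hx
    refine ⟨hS hx, fun g hg hgx => ?_⟩
    obtain ⟨S1, T1, S2, T2, hP1, hP2, hi, hu, -, -⟩ := PA.split a b x S T hP hx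
    have hbt := hC.hav.isBt (Z := {g}) (by simp)
    have key : ∀ a S1 T1, Pth G a x S1 T1 → S1 ⊆ S → Rob G F C a → g ∉ S1 →
        x ∈ bt G F C {g} := by
      intro a S1 T1 hP1 hS1 ha hgS
      have he := PA.ends _ _ _ _ hP1
      have hga : g ≠ a := by
        rintro rfl
        exact hgS he.1
      refine hbt.subset_of_mem (PA.conn _ _ _ _ hP1) ?_ he.1 (ha.2 g hg hga) he.2
      intro v hv
      rw [mem_sdiff, mem_singleton]
      refine ⟨hS (hS1 hv), ?_⟩
      rintro rfl
      exact hgS hv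
    by_cases hg1 : g ∈ S1
    · refine key b S2 T2 hP2.symm (hu ▸ subset_union_right) hb (fun hg2 => hgx ?_)
      have : g ∈ S1 ∩ S2 := mem_inter.2 ⟨hg1, hg2⟩
      rw [hi] at this
      exact mem_singleton.1 this
    · exact key a S1 T1 hP1 (hu ▸ subset_union_left) ha hg1
  refine ⟨hpath, ?_, ?_, ?_⟩
  · intro S T hc hS a ha b hb hab hra hrb x hx
    obtain ⟨S1, T1, S2, T2, hP1, hP2, -, hu, -, -⟩ := CA.split a b S T hc ha hb hab
    rw [← hu] at hx
    rcases mem_union.1 hx with hx | hx
    · exact hpath a b S1 T1 hP1 ((hu ▸ subset_union_left : S1 ⊆ S).trans hS) hab hra hrb x hx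
    · exact hpath a b S2 T2 hP2 ((hu ▸ subset_union_right : S2 ⊆ S).trans hS) hab hra hrb x hx
  · intro a ha
    have e1 := r2 {a}
    rw [card_singleton] at e1
    by_contra hcon
    have h0 : rk G F C 5 {a} = 0 := by omega
    obtain ⟨D, hD, hDX, hN⟩ := r7 {a} (by omega)
    rw [h0, card_eq_zero] at hN
    have hDC := rob_Nb_empty hC hD hN
    exact Finset.disjoint_left.1 hDX (hDC ▸ ha.1) (mem_singleton_self _)
  · intro a b ha hb hab
    have e1 := (r2 {a, b}).trans card_le_two
    by_contra hcon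
    have h0 : rk G F C 5 {a, b} ≤ 1 := by omega
    obtain ⟨D, hD, hDX, hN⟩ := r7 {a, b} (by omega)
    have haD : a ∉ D := fun h => Finset.disjoint_left.1 hDX h (by simp)
    have hbD : b ∉ D := fun h => Finset.disjoint_left.1 hDX h (by simp)
    rcases Nat.eq_zero_or_pos (Nb G C D).card with h | h
    · rw [card_eq_zero] at h
      exact haD ((rob_Nb_empty hC hD h) ▸ ha.1)
    · have h1 : (Nb G C D).card = 1 := by omega
      obtain ⟨g, hg⟩ := card_eq_one.1 h1
      have hbt := hD.isBt hC.hav (by omega : (Nb G C D).card ≤ 10)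
      have heq := hbt.eq_bt
      rw [hg] at heq
      have hgC : g ∈ C := by
        have : g ∈ Nb G C D := by rw [hg]; exact mem_singleton_self g
        exact Nb_subset this
      by_cases hga : g = a
      · have := hb.2 g hgC (fun h => hab (hga.symm.trans h))
        rw [heq] at this
        exact hbD this
      · have := ha.2 g hgC hga
        rw [heq] at this
        exact haD this

end ErdPos
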