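import Pool.Agent.Helper72.EP.Spec1

/-! # SEL: selection lemma -/

namespace ErdPos

open Finset

lemma exists_inj {n L : ℕ} {S : Finset (Fin n)} (h : L ≤ S.card) :
    ∃ u : Fin L → Fin n, Function.Injective u ∧ ∀ a, u a ∈ S :=
  ⟨S.orderEmbOfCardLe h, (S.orderEmbOfCardLe h).injective, orderEmbOfCardLe_mem S h⟩

theorem sel : ST_SEL := by
  intro p L
  induction p with
  | zero => exact ⟨0, fun α R _ f => Or.inl ⟨Fin.elim0, fun i => i.elim0⟩⟩
  | succ p ih =>
    obtain ⟨s, hs⟩ := ih
    set m := p * L + 1 with hm
    refine ⟨2 ^ m * (s + L) + m, ?_⟩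
    intro α R hsymm f
    classical
    have hmS : m ≤ 2 ^ m * (s + L) + m := by omega
    let e : Fin m → Fin (2 ^ m * (s + L) + m) := Fin.castLE hmS
    have he : Function.Injective e := Fin.castLE_injective hmS
    let σ : Fin p → Fin (2 ^ m * (s + L) + m) → Finset (Fin m) := fun i x =>
      univ.filter (fun t => R (f i.castSucc x) (f (Fin.last p) (e t)))
    have hpig : ∀ i : Fin p, ∃ J : Finset (Fin m), s + L ≤
        (univ.filter (fun x => σ i x = J)).card := by
      intro i
      obtain ⟨J, -, hJ⟩ := exists_le_card_fiber_of_mul_le_card_of_maps_to (s := univ)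
        (t := (univ : Finset (Finset (Fin m)))) (f := σ i) (n := s + L)
        (fun a _ => mem_univ _) ⟨∅, mem_univ _⟩ (by
          rw [card_univ, card_univ, Fintype.card_finset, Fintype.card_fin, Fintype.card_fin]
          omega)
      exact ⟨J, hJ⟩
    choose J hJ using hpig
    by_cases hbig : ∃ i, L ≤ (J i).card
    · obtain ⟨i, hi⟩ := hbig
      right
      obtain ⟨u, hu, hum⟩ := exists_inj (S := univ.filter (fun x => σ i x = J i)) (L := L) (by
          have := hJ i
          omega)
      obtain ⟨v, hv, hvm⟩ := exists_inj hi
      refine ⟨i.castSucc, Fin.last p, (Fin.castSucc_lt_last i).ne, u, fun b => e (v b), hu,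
        he.comp hv, ?_⟩
      intro a b
      have h1 := (mem_filter.1 (hum a)).2
      have h2 := hvm b
      rw [← h1] at h2
      exact (mem_filter.1 h2).2
    · push Not at hbig
      have hex : ∃ t : Fin m, ∀ i, t ∉ J i := by
        by_contra hc
        push Not at hc
        have h1 : (univ : Finset (Fin m)) ⊆ univ.biUnion J := by
          intro t _
          obtain ⟨i, hi⟩ := hc t
          exact mem_biUnion.2 ⟨i, mem_univ _, hi⟩
        have h2 := card_le_card h1
        have h3 := card_biUnion_le (s := (univ : Finset (Fin p))) (t := J)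
        have h4 : ∑ i : Fin p, (J i).card ≤ ∑ _i : Fin p, L :=
          sum_le_sum (fun i _ => (hbig i).le)
        rw [sum_const, card_univ, Fintype.card_fin, smul_eq_mul] at h4
        rw [card_univ, Fintype.card_fin] at h2
        omega
      obtain ⟨t, ht⟩ := hex
      have hg : ∀ i : Fin p, ∃ u : Fin s → Fin (2 ^ m * (s + L) + m), Function.Injective u ∧
          ∀ a, u a ∈ univ.filter (fun x => σ i x = J i) := fun i => exists_inj (by
            have := hJ i
            omega)
      choose g hgi hgm' using hg
      have hgm : ∀ i x, σ i (g i x) = J i := fun i x => (mem_filter.1 (hgm' i x)).2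
      rcases hs α R hsymm (fun i x => f i.castSucc (g i x)) with ⟨c, hc⟩ | ⟨i, j, hij, u, v, hu, hv, huv⟩
      · left
        have hnr : ∀ i, ¬ R (f i.castSucc (g i (c i))) (f (Fin.last p) (e t)) := by
          intro i h
          apply ht i
          rw [← hgm i (c i)]
          exact mem_filter.2 ⟨mem_univ _, h⟩
        refine ⟨Fin.lastCases (e t) (fun i => g i (c i)), ?_⟩
        intro i j
        refine Fin.lastCases ?_ (fun i => ?_) i
        · refine Fin.lastCases (fun h => absurd rfl h) (fun j _ => ?_) j
          simp only [Fin.lastCases_last, Fin.lastCases_castSucc]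
          exact fun h => hnr j (hsymm _ _ h)
        · refine Fin.lastCases (fun _ => ?_) (fun j hij => ?_) j
          · simp only [Fin.lastCases_last, Fin.lastCases_castSucc]
            exact hnr i
          · simp only [Fin.lastCases_castSucc]
            exact hc i j (fun h => hij (by rw [h]))
      · right
        exact ⟨i.castSucc, j.castSucc, fun h => hij (Fin.castSucc_injective p h),
          fun a => g i (u a), fun b => g j (v b), (hgi i).comp hu, (hgi j).comp hv, huv⟩

theorem st_SEL : ST_SEL := sel

end ErdPos
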