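import Pool.Agent.Helper72.EP.Spec3
import Pool.Agent.Helper46.EPS.Host

/-! # SYS: the example -/

namespace ErdPos

open Finset
open Pool.Agent.Helper46.FG (Nm Dc VN Dc_block Dc_disj Dc_nonempty Dc_even Dc_min Dc_cyc host_star
  on_Dc_card on_Dc_inl mem_VN block_of_mem)

/-- edges of the host system -/
def SysP (e : Sym2 Nm) : Prop := ∃ N i, 5 ≤ N ∧ i < N ∧ e ∈ Dc 3 N i

/-- the type of the edges of the host system -/
abbrev SysE : Type := {e : Sym2 Nm // SysP e}

/-- incidence -/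
def sysInc (e : SysE) (x : Nm) : Prop := x ∈ e.1

open Classical in
/-- restriction of a set of pairs -/
noncomputable def sysR (U : Finset (Sym2 Nm)) : Finset SysE := U.subtype SysP

lemma mem_sysR {U : Finset (Sym2 Nm)} {e : SysE} : e ∈ sysR U ↔ e.1 ∈ U := by
  classical
  unfold sysR
  exact mem_subtype

/-- the designated sets -/
def sysD : Set (Finset SysE) := {D | ∃ N i, 5 ≤ N ∧ i < N ∧ D = sysR (Dc 3 N i)}

/-- the underlying set of pairs -/
noncomputable def sysV (S : Finset SysE) : Finset (Sym2 Nm) :=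
  S.map ⟨Subtype.val, Subtype.val_injective⟩

lemma mem_sysV {S : Finset SysE} {e : Sym2 Nm} : e ∈ sysV S ↔ ∃ h : SysP e, ⟨e, h⟩ ∈ S := by
  unfold sysV
  rw [mem_map]
  constructor
  · rintro ⟨a, ha, rfl⟩
    exact ⟨a.2, ha⟩
  · rintro ⟨h, he⟩
    exact ⟨⟨e, h⟩, he, rfl⟩

lemma card_sysV (S : Finset SysE) : (sysV S).card = S.card := by
  unfold sysV
  rw [card_map]

lemma sysV_inj {S S' : Finset SysE} (h : sysV S = sysV S') : S = S' := by
  ext e
  have h1 : ∀ S : Finset SysE, e ∈ S ↔ e.1 ∈ sysV S := by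
    intro S
    rw [mem_sysV]
    constructor
    · intro h; exact ⟨e.2, h⟩
    · rintro ⟨_, h⟩; exact h
  rw [h1, h1, h]

lemma sysV_sysR {N i : ℕ} (hN : 5 ≤ N) (hi : i < N) : sysV (sysR (Dc 3 N i)) = Dc 3 N i := by
  ext e
  rw [mem_sysV]
  constructor
  · rintro ⟨_, he⟩
    exact mem_sysR.1 he
  · intro he
    exact ⟨⟨N, i, hN, hi, he⟩, mem_sysR.2 he⟩

open Classical in
lemma sysV_star (S : Finset SysE) (x : Nm) :
    ((sysV S).filter (fun e => x ∈ e)).card = (S.filter (fun e => sysInc e x)).card := by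
  rw [← card_sysV (S.filter (fun e => sysInc e x))]
  congr 1
  ext e
  rw [mem_filter, mem_sysV, mem_sysV]
  constructor
  · rintro ⟨⟨h, he⟩, hx⟩
    exact ⟨h, mem_filter.2 ⟨he, hx⟩⟩
  · rintro ⟨h, he⟩
    rw [mem_filter] at he
    exact ⟨⟨h, he.1⟩, he.2⟩

open Classical in
lemma par_sys (S : Finset SysE) (x : Nm) :
    par sysInc S x = 0 ↔ Even ((sysV S).filter (fun e => x ∈ e)).card := by
  unfold par
  rw [sysV_star, ZMod.natCast_eq_zero_iff_even]

theorem sys_isSys : IsSys sysInc sysD := by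
  classical
  refine ⟨?_, ?_, ?_, ?_, ?_⟩
  · intro x
    refine ⟨sysR ((range x.1).biUnion (fun i => (Dc 3 x.1 i).filter (fun e => x ∈ e))), ?_, ?_⟩
    · rw [← card_sysV]
      refine (host_star (s := 3) (by norm_num) x _ ?_).trans (by norm_num)
      intro e he
      obtain ⟨hP, he⟩ := mem_sysV.1 he
      rw [mem_sysR] at he
      obtain ⟨i, _, he⟩ := mem_biUnion.1 he
      rw [mem_filter] at he
      exact ⟨he.2, hP⟩
    · intro e
      rw [mem_sysR, mem_biUnion]
      constructor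
      · intro hx
        obtain ⟨N, i, hN, hi, he⟩ := e.2
        have hxN : x.1 = N := Dc_block he hx
        subst hxN
        exact ⟨i, mem_range.2 hi, mem_filter.2 ⟨he, hx⟩⟩
      · rintro ⟨i, _, he⟩
        exact (mem_filter.1 he).2
  · rintro D ⟨N, i, hN, hi, rfl⟩ x
    rw [par_sys, sysV_sysR hN hi]
    exact Dc_even (by norm_num) (by omega) hi x
  · rintro D ⟨N, i, hN, hi, rfl⟩
    obtain ⟨e, he⟩ := Dc_nonempty (s := 3) (by norm_num) (by omega : 3 + 2 ≤ N) hi
    exact ⟨⟨e, N, i, hN, hi, he⟩, mem_sysR.2 he⟩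
  · rintro D ⟨N, i, hN, hi, rfl⟩ S hS hne hev
    apply sysV_inj
    rw [sysV_sysR hN hi]
    refine Dc_min (by norm_num) (by omega) hi ?_ ?_ (fun v => (par_sys S v).1 (hev v))
    · intro e he
      obtain ⟨h, he⟩ := mem_sysV.1 he
      exact mem_sysR.1 (hS he)
    · obtain ⟨e, he⟩ := hne
      exact ⟨e.1, mem_sysV.2 ⟨e.2, he⟩⟩
  · intro x P hP
    have hex : ∀ D ∈ P, ∃ i, D = sysR (Dc 3 x.1 i) ∧ Pool.Agent.Helper46.FG.On x (Dc 3 x.1 i) := by
      intro D hD
      obtain ⟨⟨N, i, hN, hi, rfl⟩, e, he, hx⟩ := hP D hD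
      rw [mem_sysR] at he
      have hxN : x.1 = N := Dc_block he hx
      subst hxN
      exact ⟨i, rfl, e.1, he, hx⟩
    choose! ix hix using hex
    have hinj : Set.InjOn ix (P : Set (Finset SysE)) := by
      intro D hD D' hD' h
      rw [(hix D hD).1, (hix D' hD').1, h]
    rw [← card_image_of_injOn hinj]
    apply on_Dc_card (s := 3) (N := x.1) (by norm_num) x
    intro i hi
    obtain ⟨D, hD, rfl⟩ := mem_image.1 hi
    exact (hix D hD).2

/-- the `N`-th host graph -/
def SysG (N : ℕ) : SimpleGraph {v // v ∈ VN 3 N} where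
  Adj u v := SysP s(u.1, v.1)
  symm := by
    constructor
    intro u v h
    rw [Sym2.eq_swap]
    exact h
  loopless := by
    constructor
    rintro u ⟨N, i, hN, hi, he⟩
    obtain ⟨n, hn, c, hc, hF⟩ := Dc_cyc (s := 3) (by norm_num) (by omega : 3 + 2 ≤ N) hi
    obtain ⟨j, hj⟩ := (hF _).1 he
    have h1 : c j = c (j + 1) := by
      rw [Sym2.eq_iff] at hj
      rcases hj with ⟨h1, h2⟩ | ⟨h1, h2⟩
      · rw [← h1, ← h2]
      · rw [← h1, ← h2]
    exact Pool.Agent.Helper46.FG.zmod_one_ne hn (by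
      have := hc h1
      linear_combination -this)

open Classical in
/-- the identity labelling -/
noncomputable def sysL (N : ℕ) (e : Sym2 {v // v ∈ VN 3 N}) : SysE →₀ ℤ :=
  if h : SysP (e.map Subtype.val) then Finsupp.single ⟨e.map Subtype.val, h⟩ 1 else 0

lemma sysG_edge {N : ℕ} {e : Sym2 {v // v ∈ VN 3 N}} (he : e ∈ (SysG N).edgeSet) :
    SysP (e.map Subtype.val) := by
  induction e using Sym2.ind with
  | _ u v => exact he

open Classical in
/-- the value of a set of edges of the host graph -/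
lemma sysL_sum {N : ℕ} (F : Finset (Sym2 {v // v ∈ VN 3 N}))
    (hF : ∀ e ∈ F, SysP (e.map Subtype.val)) (x : SysE) :
    (∑ e ∈ F, sysL N e) x = if x.1 ∈ F.image (Sym2.map Subtype.val) then 1 else 0 := by
  rw [Finsupp.finsetSum_apply]
  have h1 : ∀ e ∈ F, (sysL N e) x = if e.map Subtype.val = x.1 then 1 else 0 := by
    intro e he
    unfold sysL
    rw [dif_pos (hF e he), Finsupp.single_apply]
    by_cases h : e.map Subtype.val = x.1
    · rw [if_pos h, if_pos (Subtype.ext h)]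
    · rw [if_neg h, if_neg (fun h' => h (congrArg Subtype.val h'))]
  rw [sum_congr rfl h1]
  by_cases hx : x.1 ∈ F.image (Sym2.map Subtype.val)
  · rw [if_pos hx]
    obtain ⟨e0, he0, hex⟩ := mem_image.1 hx
    rw [sum_eq_single e0]
    · rw [if_pos hex]
    · intro b _ hb
      rw [if_neg]
      intro h
      exact hb (Sym2.map.injective Subtype.val_injective (h.trans hex.symm))
    · intro h; exact absurd he0 h
  · rw [if_neg hx]
    apply sum_eq_zero
    intro e he
    rw [if_neg]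
    intro h
    exact hx (mem_image.2 ⟨e, he, h⟩)

lemma sys_on_image {N : ℕ} {F : Finset (Sym2 {v // v ∈ VN 3 N})} (v : {v // v ∈ VN 3 N}) :
    (∃ e ∈ F.image (Sym2.map Subtype.val), v.1 ∈ e) ↔ On v F := by
  constructor
  · rintro ⟨e, he, hv⟩
    obtain ⟨e', he', rfl⟩ := mem_image.1 he
    refine ⟨e', he', ?_⟩
    obtain ⟨w, hw, hwv⟩ := Sym2.mem_map.1 hv
    have : w = v := Subtype.ext hwv
    rw [← this]; exact hw
  · rintro ⟨e, he, hv⟩
    exact ⟨_, mem_image_of_mem _ he, Sym2.mem_map.2 ⟨v, hv, rfl⟩⟩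

open Classical in
/-- cycles are even -/
lemma sys_cyc_even {V : Type} {G : SimpleGraph V} {F : Finset (Sym2 V)} (hF : IsCyc G F) (v : V) :
    Even (F.filter (fun e => v ∈ e)).card := by
  obtain ⟨a, c, hc, hFc⟩ := hF
  have h1 := (hc.isTrail.even_countP_edges_iff v).2 (fun h => absurd rfl h)
  have h2 : F.filter (fun e => v ∈ e) = (c.edges.filter (fun e => decide (v ∈ e))).toFinset := by
    ext e
    rw [mem_filter, hFc, List.mem_toFinset, List.mem_filter, decide_eq_true_eq]
  rw [h2, List.toFinset_card_of_nodup (hc.isTrail.edges_nodup.filter _),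
    ← List.countP_eq_length_filter]
  exact h1

/-- the `A`-cycles of the host graphs are designated -/
lemma sys_des {N : ℕ} {F : Finset (Sym2 {v // v ∈ VN 3 N})} (hF : IsCyc (SysG N) F)
    (hA : ∑ e ∈ F, sysL N e ∈ AS sysInc sysD) :
    ∃ i < N, F.image (Sym2.map Subtype.val) = Dc 3 N i := by
  classical
  have hFP : ∀ e ∈ F, SysP (e.map Subtype.val) := by
    intro e he
    obtain ⟨a, c, hc, hFc⟩ := hF
    exact sysG_edge (c.edges_subset_edgeSet ((hFc e).1 he))
  have hval := sysL_sum F hFP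
  have hsupp : (∑ e ∈ F, sysL N e).support = sysR (F.image (Sym2.map Subtype.val)) := by
    ext x
    rw [Finsupp.mem_support_iff, hval, mem_sysR]
    by_cases h : x.1 ∈ F.image (Sym2.map Subtype.val)
    · rw [if_pos h]; simp [h]
    · rw [if_neg h]; simp [h]
  have hV : sysV (sysR (F.image (Sym2.map Subtype.val))) = F.image (Sym2.map Subtype.val) := by
    ext e
    rw [mem_sysV]
    constructor
    · rintro ⟨_, he⟩
      exact mem_sysR.1 he
    · intro he
      obtain ⟨e', he', rfl⟩ := mem_image.1 he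
      exact ⟨hFP e' he', mem_sysR.2 he⟩
  rcases hA with hA | ⟨D, ⟨N', i, hN', hi, rfl⟩, hD⟩
  · exfalso
    apply hA
    refine ⟨fun x => ?_, fun x => ?_⟩
    · rw [hval]
      split_ifs
      · exact Or.inr rfl
      · exact Or.inl rfl
    · rw [hsupp, par_sys, hV]
      by_cases hx : x ∈ VN 3 N
      · have h1 := sys_cyc_even hF ⟨x, hx⟩
        have h2 : ((F.image (Sym2.map Subtype.val)).filter (fun e => x ∈ e)) =
            (F.filter (fun e => (⟨x, hx⟩ : {v // v ∈ VN 3 N}) ∈ e)).image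
              (Sym2.map Subtype.val) := by
          ext e
          rw [mem_filter, mem_image, mem_image]
          constructor
          · rintro ⟨⟨e', he', rfl⟩, hxe⟩
            obtain ⟨w, hw, hwx⟩ := Sym2.mem_map.1 hxe
            have : w = ⟨x, hx⟩ := Subtype.ext hwx
            exact ⟨e', mem_filter.2 ⟨he', this ▸ hw⟩, rfl⟩
          · rintro ⟨e', he', rfl⟩
            rw [mem_filter] at he'
            exact ⟨⟨e', he'.1, rfl⟩, Sym2.mem_map.2 ⟨_, he'.2, rfl⟩⟩
        rw [h2, card_image_of_injective _ (Sym2.map.injective Subtype.val_injective)]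
        convert h1
      · have h2 : ((F.image (Sym2.map Subtype.val)).filter (fun e => x ∈ e)) = ∅ := by
          rw [filter_eq_empty_iff]
          intro e he hxe
          obtain ⟨e', he', rfl⟩ := mem_image.1 he
          obtain ⟨w, hw, hwx⟩ := Sym2.mem_map.1 hxe
          exact hx (hwx ▸ w.2)
        rw [h2]
        simp
  · have h1 : F.image (Sym2.map Subtype.val) = Dc 3 N' i := by
      rw [← hV, ← hsupp, hD.1, sysV_sysR hN' hi]
    obtain ⟨e, he⟩ := Dc_nonempty (s := 3) (by norm_num) (by omega : 3 + 2 ≤ N') hi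
    have h2 : e ∈ F.image (Sym2.map Subtype.val) := by rw [h1]; exact he
    obtain ⟨e', he', hee⟩ := mem_image.1 h2
    have h3 : N = N' := by
      induction e' using Sym2.ind with
      | _ u v =>
        have hu : u.1 ∈ e := by
          rw [← hee]
          exact Sym2.mem_mk_left _ _
        rw [← block_of_mem u.2]
        exact Dc_block he hu
    subst h3
    exact ⟨i, hi, h1⟩

/-- the designated cycles occur -/
lemma sys_exists (h1 : ST_CYCL) {N i : ℕ} (hN : 5 ≤ N) (hi : i < N) :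
    ∃ F : Finset (Sym2 {v // v ∈ VN 3 N}), IsCyc (SysG N) F ∧
      F.image (Sym2.map Subtype.val) = Dc 3 N i := by
  classical
  obtain ⟨n, hn, c, hc, hF⟩ := Dc_cyc (s := 3) (by norm_num) (by omega : 3 + 2 ≤ N) hi
  have hmem : ∀ j, c j ∈ VN 3 N := by
    intro j
    exact mem_VN.2 ⟨i, hi, _, (hF _).2 ⟨j, rfl⟩, Sym2.mem_mk_left _ _⟩
  obtain ⟨F, hFc, hFe⟩ := h1 {v // v ∈ VN 3 N} (SysG N) n hn (fun j => ⟨c j, hmem j⟩)
    (fun a b hab => hc (congrArg Subtype.val hab))
    (fun j => ⟨N, i, hN, hi, (hF _).2 ⟨j, rfl⟩⟩)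
  refine ⟨F, hFc, ?_⟩
  ext e
  rw [mem_image, hF]
  constructor
  · rintro ⟨e', he', rfl⟩
    obtain ⟨j, rfl⟩ := (hFe e').1 he'
    exact ⟨j, rfl⟩
  · rintro ⟨j, rfl⟩
    exact ⟨_, (hFe _).2 ⟨j, rfl⟩, rfl⟩

/-- designated cycles have values in `A` -/
lemma sys_val {N i : ℕ} (hN : 5 ≤ N) (hi : i < N) {F : Finset (Sym2 {v // v ∈ VN 3 N})}
    (hF : F.image (Sym2.map Subtype.val) = Dc 3 N i) :
    ∑ e ∈ F, sysL N e ∈ AS sysInc sysD := by
  classical
  have hFP : ∀ e ∈ F, SysP (e.map Subtype.val) := by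
    intro e he
    refine ⟨N, i, hN, hi, ?_⟩
    rw [← hF]
    exact mem_image_of_mem _ he
  have hval := sysL_sum F hFP
  rw [hF] at hval
  right
  refine ⟨_, ⟨N, i, hN, hi, rfl⟩, ?_, ?_⟩
  · ext x
    rw [Finsupp.mem_support_iff, hval, mem_sysR]
    by_cases h : x.1 ∈ Dc 3 N i
    · rw [if_pos h]; simp [h]
    · rw [if_neg h]; simp [h]
  · intro x hx
    rw [hval, if_pos (mem_sysR.1 hx)]

theorem sys_neg (h1 : ST_CYCL) : ¬ EP (SysE →₀ ℤ) (AS sysInc sysD) 3 := by
  classical
  rintro ⟨f, hf⟩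
  set N := 3 * f 3 + 5 with hN
  have hN5 : 5 ≤ N := by omega
  rcases hf {v // v ∈ VN 3 N} (SysG N) (sysL N) 3 (by omega) with
    ⟨P, hPc, hPA, hPv⟩ | ⟨H, hHc, hH⟩
  · have hdes : ∀ F ∈ P, ∃ i < N, F.image (Sym2.map Subtype.val) = Dc 3 N i :=
      fun F hF => sys_des (hPA F hF).1 (hPA F hF).2
    choose! ix hix using hdes
    have hinj : Set.InjOn ix (P : Set (Finset (Sym2 {v // v ∈ VN 3 N}))) := by
      intro F hF F' hF' h
      have h1 := (hix F hF).2
      have h2 := (hix F' hF').2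
      rw [h, ← h2] at h1
      exact image_injective (Sym2.map.injective Subtype.val_injective) h1
    have hTc : (P.image ix).card = 3 := by rw [card_image_of_injOn hinj, hPc]
    have hTN : P.image ix ⊆ range N := by
      intro i hi
      obtain ⟨F, hF, rfl⟩ := mem_image.1 hi
      exact mem_range.2 (hix F hF).1
    have hTne : (P.image ix).Nonempty := by
      rw [← card_pos, hTc]; omega
    obtain ⟨i0, hi0⟩ := hTne
    have hvm : ((N, Sum.inl (P.image ix)) : Nm) ∈ VN 3 N :=
      mem_VN.2 ⟨i0, mem_range.1 (hTN hi0), on_Dc_inl hTN hTc hi0⟩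
    have h1 := hPv ⟨_, hvm⟩
    have h2 : {F | F ∈ P ∧ On (⟨_, hvm⟩ : {v // v ∈ VN 3 N}) F} = (P : Set _) := by
      ext F
      simp only [Set.mem_setOf_eq, Finset.mem_coe]
      refine ⟨fun h => h.1, fun hF => ⟨hF, ?_⟩⟩
      rw [← sys_on_image, (hix F hF).2]
      exact on_Dc_inl hTN hTc (mem_image_of_mem _ hF)
    rw [h2, Set.ncard_coe_finset, hPc] at h1
    omega
  · have h1 : ∀ i ∈ range N, ∃ v ∈ H, Pool.Agent.Helper46.FG.On v.1 (Dc 3 N i) := by
      intro i hi
      obtain ⟨F, hF, hFi⟩ := sys_exists h1 hN5 (mem_range.1 hi)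
      obtain ⟨v, hv, hvF⟩ := hH F hF (sys_val hN5 (mem_range.1 hi) hFi)
      refine ⟨v, hv, ?_⟩
      have := (sys_on_image v).2 hvF
      rw [hFi] at this
      exact this
    have h2 : range N ⊆ H.biUnion (fun v => (range N).filter
        (fun i => Pool.Agent.Helper46.FG.On v.1 (Dc 3 N i))) := by
      intro i hi
      obtain ⟨v, hv, hvi⟩ := h1 i hi
      exact mem_biUnion.2 ⟨v, hv, mem_filter.2 ⟨hi, hvi⟩⟩
    have h3 := card_le_card h2
    rw [card_range] at h3
    have h4 : (H.biUnion (fun v => (range N).filter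
        (fun i => Pool.Agent.Helper46.FG.On v.1 (Dc 3 N i)))).card ≤ H.card * 3 := by
      apply card_biUnion_le_card_mul
      intro v _
      apply on_Dc_card (by omega) v.1
      intro i hi
      exact (mem_filter.1 hi).2
    omega

lemma sys_countable : Countable SysE := by
  have hc : Countable (Sym2 Nm) := by
    unfold Sym2
    infer_instance
  infer_instance

lemma sys_infinite : Infinite SysE := by
  have h : ∀ n : ℕ, ∃ e, e ∈ Dc 3 (n + 5) 0 := fun n =>
    Dc_nonempty (by norm_num) (by omega) (by omega)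
  choose g hg using h
  refine Infinite.of_injective
    (fun n => (⟨g n, n + 5, 0, by omega, by omega, hg n⟩ : SysE)) ?_
  intro a b hab
  have h1 : g a = g b := congrArg Subtype.val hab
  have h2 : g a ∈ Dc 3 (b + 5) 0 := by
    rw [h1]
    exact hg b
  have := (Dc_disj (hg a) h2).1
  omega

/-- The example, with the additional information that `E` is countable and infinite. -/
theorem st_SYSinf (h1 : ST_CYCL) :
    ∃ (E X : Type) (_ : Countable E) (_ : Infinite E) (inc : E → X → Prop)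
      (𝒟 : Set (Finset E)), IsSys inc 𝒟 ∧ ¬ EP (E →₀ ℤ) (AS inc 𝒟) 3 :=
  ⟨SysE, Nm, sys_countable, sys_infinite, sysInc, sysD, sys_isSys, sys_neg h1⟩

theorem st_SYS (h1 : ST_CYCL) : ST_SYS :=
  ⟨SysE, Nm, sys_countable, sysInc, sysD, sys_isSys, sys_neg h1⟩

end ErdPos
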