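import Pool.Agent.Helper72.EP.Spec1

/-! # TRA: transport of promises along the links -/

namespace ErdPos

open Finset

lemma tra_ext {V : Type} [DecidableEq V] {G : SimpleGraph V} {L : Finset V} {t z : V}
    (hL : Conn G L) (ht : t ∈ L) (hz : z ∈ L) :
    ∃ E, E ⊆ L \ {t} ∧ ∀ X, Conn G X → Ad G z X → Conn G (X ∪ E) ∧ Ad G t (X ∪ E) := by
  by_cases h : z = t
  · subst h
    exact ⟨∅, empty_subset _, fun X hX hzX => by simpa using ⟨hX, hzX⟩⟩
  · obtain ⟨E, h1, h2, h3, h4⟩ := link1 hL ht hz (fun h' => h h'.symm)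
    refine ⟨E, fun v hv => ?_, fun X hX hzX => ⟨?_, h4.mono subset_union_right⟩⟩
    · have := mem_erase.1 (h1 hv)
      exact mem_sdiff.2 ⟨this.2, by simpa using this.1⟩
    · rw [union_comm]
      exact h2.union_of_ad hX h3 hzX

lemma tra_ext2 {V : Type} [DecidableEq V] {G : SimpleGraph V} {E : V → Finset V} {s t zs zt : V}
    (hs : ∀ X, Conn G X → Ad G zs X → Conn G (X ∪ E s) ∧ Ad G s (X ∪ E s))
    (ht : ∀ X, Conn G X → Ad G zt X → Conn G (X ∪ E t) ∧ Ad G t (X ∪ E t))
    {X : Finset V} (hX : Conn G X) (hzs : Ad G zs X) (hzt : Ad G zt X) :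
    Conn G (X ∪ (E s ∪ E t)) ∧ Ad G s (X ∪ (E s ∪ E t)) ∧ Ad G t (X ∪ (E s ∪ E t)) := by
  obtain ⟨h1, h2⟩ := hs X hX hzs
  obtain ⟨h3, h4⟩ := ht _ h1 (hzt.mono subset_union_left)
  rw [union_assoc] at h3 h4
  refine ⟨h3, h2.mono ?_, h4⟩
  rw [← union_assoc]
  exact subset_union_left

theorem tra : ST_TRA := by
  intro V _ _ G F R R' B ρ L z hρ hR hB hL hLd hP
  have hex : ∀ t, ∃ E : Finset V, t ∈ ρ → E ⊆ L t \ {t} ∧
      ∀ X, Conn G X → Ad G (z t) X → Conn G (X ∪ E) ∧ Ad G t (X ∪ E) := by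
    intro t
    by_cases ht : t ∈ ρ
    · obtain ⟨h1, h2, h3, -, -⟩ := hL t ht
      obtain ⟨E, hE⟩ := tra_ext h1 h2 h3
      exact ⟨E, fun _ => hE⟩
    · exact ⟨∅, fun h => absurd h ht⟩
  choose E hE using hex
  have hER : ∀ t ∈ ρ, E t ⊆ R := fun t ht => (hE t ht).1.trans (hL t ht).2.2.2.1
  have hEL : ∀ t ∈ ρ, E t ⊆ L t := fun t ht => (hE t ht).1.trans sdiff_subset
  have hEB : ∀ t ∈ ρ, E t ⊆ B ∪ ρ.toFinset.biUnion L := fun t ht v hv =>
    mem_union_right _ (mem_biUnion.2 ⟨t, List.mem_toFinset.2 ht, hEL t ht hv⟩)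
  have hsub : ∀ X : Finset V, X ⊆ R' → ∀ s ∈ ρ, ∀ t ∈ ρ, X ∪ (E s ∪ E t) ⊆ R := by
    intro X hX s hs t ht
    exact union_subset (hX.trans hR) (union_subset (hER s hs) (hER t ht))
  match ρ, hρ, hB, hL, hLd, hP, hE, hER, hEL, hEB, hsub with
  | [], _, _, _, _, hP, _, _, _, _, _ =>
    simp only [List.map_nil]
    exact Has.mono hP subset_union_left
  | [a, b], _, _, _, _, hP, hE, _, _, hEB, hsub =>
    simp only [List.map_cons, List.map_nil]
    intro X hX hXc haX hbX
    have ha : a ∈ [a, b] := by simp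
    have hb : b ∈ [a, b] := by simp
    obtain ⟨g1, g2, g3⟩ := tra_ext2 (hE a ha).2 (hE b hb).2 hXc haX hbX
    refine Has.mono (hP _ (hsub X hX a ha b hb) g1 g2 g3) ?_
    intro v hv
    rcases mem_union.1 hv with h | h
    · exact mem_union_left _ (mem_union_left _ h)
    rcases mem_union.1 h with h | h
    · exact mem_union_right _ h
    rcases mem_union.1 h with h | h
    · exact mem_union_left _ (hEB a ha h)
    · exact mem_union_left _ (hEB b hb h)
  | [a, b, c, d], hρ, _, hL, hLd, hP, hE, _, hEL, hEB, hsub =>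
    simp only [List.map_cons, List.map_nil]
    intro X X' hX hX' hXX' hXc hX'c haX hbX' hcd
    have ha : a ∈ [a, b, c, d] := by simp
    have hb : b ∈ [a, b, c, d] := by simp
    have hc : c ∈ [a, b, c, d] := by simp
    have hd : d ∈ [a, b, c, d] := by simp
    -- disjointness
    have hEd : ∀ s ∈ [a, b, c, d], ∀ t ∈ [a, b, c, d], s ≠ t → ∀ v, v ∈ E s → v ∉ E t :=
      fun s hs t ht hst v hv hv' =>
        Finset.disjoint_left.1 (hLd s hs t ht hst) (hEL s hs hv) (hEL t ht hv')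
    have hEX : ∀ s ∈ [a, b, c, d], ∀ v, v ∈ E s → v ∉ R' := fun s hs v hv hv' =>
      Finset.disjoint_left.1 (hL s hs).2.2.2.2 (hEL s hs hv) hv'
    have key : ∀ s ∈ [a, b, c, d], ∀ t ∈ [a, b, c, d], ∀ s' ∈ [a, b, c, d], ∀ t' ∈ [a, b, c, d],
        s ≠ s' → s ≠ t' → t ≠ s' → t ≠ t' →
        Disjoint (X ∪ (E s ∪ E t)) (X' ∪ (E s' ∪ E t')) := by
      intro s hs t ht s' hs' t' ht' n1 n2 n3 n4
      rw [Finset.disjoint_left]
      intro v hv hv'
      have e1 := hEd s hs s' hs' n1 v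
      have e2 := hEd s hs t' ht' n2 v
      have e3 := hEd t ht s' hs' n3 v
      have e4 := hEd t ht t' ht' n4 v
      rcases mem_union.1 hv with h | h
      · rcases mem_union.1 hv' with h' | h'
        · exact Finset.disjoint_left.1 hXX' h h'
        · rcases mem_union.1 h' with h' | h'
          · exact hEX s' hs' v h' (hX h)
          · exact hEX t' ht' v h' (hX h)
      · rcases mem_union.1 hv' with h' | h'
        · rcases mem_union.1 h with h | h
          · exact hEX s hs v h (hX' h')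
          · exact hEX t ht v h (hX' h')
        · rcases mem_union.1 h with h | h <;> rcases mem_union.1 h' with h' | h'
          · exact e1 h h'
          · exact e2 h h'
          · exact e3 h h'
          · exact e4 h h'
    have hbig : ∀ s ∈ [a, b, c, d], ∀ t ∈ [a, b, c, d], ∀ s' ∈ [a, b, c, d], ∀ t' ∈ [a, b, c, d],
        B ∪ ((X ∪ (E s ∪ E t)) ∪ (X' ∪ (E s' ∪ E t'))) ⊆
          (B ∪ [a, b, c, d].toFinset.biUnion L) ∪ (X ∪ X') := by
      intro s hs t ht s' hs' t' ht' v hv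
      rcases mem_union.1 hv with h | h
      · exact mem_union_left _ (mem_union_left _ h)
      rcases mem_union.1 h with h | h
      · rcases mem_union.1 h with h | h
        · exact mem_union_right _ (mem_union_left _ h)
        · rcases mem_union.1 h with h | h
          · exact mem_union_left _ (hEB s hs h)
          · exact mem_union_left _ (hEB t ht h)
      · rcases mem_union.1 h with h | h
        · exact mem_union_right _ (mem_union_right _ h)
        · rcases mem_union.1 h with h | h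
          · exact mem_union_left _ (hEB s' hs' h)
          · exact mem_union_left _ (hEB t' ht' h)
    have nab : a ≠ b := by rintro rfl; simp at hρ
    have nac : a ≠ c := by rintro rfl; simp at hρ
    have nad : a ≠ d := by rintro rfl; simp at hρ
    have nbc : b ≠ c := by rintro rfl; simp at hρ
    have nbd : b ≠ d := by rintro rfl; simp at hρ
    have ncd : c ≠ d := by rintro rfl; simp at hρ
    rcases hcd with ⟨hcX, hdX'⟩ | ⟨hdX, hcX'⟩
    · obtain ⟨g1, g2, g3⟩ := tra_ext2 (hE a ha).2 (hE c hc).2 hXc haX hcX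
      obtain ⟨g4, g5, g6⟩ := tra_ext2 (hE b hb).2 (hE d hd).2 hX'c hbX' hdX'
      refine Has.mono (hP _ _ (hsub X hX a ha c hc) (hsub X' hX' b hb d hd)
        (key a ha c hc b hb d hd nab nad nbc.symm ncd) g1 g4 g2 g5 (Or.inl ⟨g3, g6⟩)) ?_
      exact hbig a ha c hc b hb d hd
    · obtain ⟨g1, g2, g3⟩ := tra_ext2 (hE a ha).2 (hE d hd).2 hXc haX hdX
      obtain ⟨g4, g5, g6⟩ := tra_ext2 (hE b hb).2 (hE c hc).2 hX'c hbX' hcX'
      refine Has.mono (hP _ _ (hsub X hX a ha d hd) (hsub X' hX' b hb c hc)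
        (key a ha d hd b hb c hc nab nac nbd.symm ncd.symm) g1 g4 g2 g5 (Or.inr ⟨g3, g6⟩)) ?_
      exact hbig a ha d hd b hb c hc

theorem st_TRA : ST_TRA := tra

end ErdPos
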