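import Pool.Agent.Helper72.EP.Spec1

/-! # XBAR: the crossbar -/

namespace ErdPos

open Finset

section
variable {V : Type} [DecidableEq V] {G : SimpleGraph V}

/-- a connected set at one level of the blow-up -/
lemma conn_lift {A : Finset V} (hA : Conn G A) (i : Bool) : Conn (BU G) (A ×ˢ {i}) := by
  obtain ⟨a, ha⟩ := hA.1
  refine ⟨⟨(a, i), by simp [ha]⟩, fun B hB hne hBA => ?_⟩
  have h1 : ∀ x ∈ B, x.1 ∈ A ∧ x.2 = i := by
    intro x hx
    have := hB hx
    rw [mem_product, mem_singleton] at this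
    exact this
  have hmem : ∀ v, v ∈ B.image Prod.fst ↔ (v, i) ∈ B := by
    intro v
    rw [mem_image]
    constructor
    · rintro ⟨x, hx, rfl⟩
      rw [← (h1 x hx).2]
      exact hx
    · intro h
      exact ⟨(v, i), h, rfl⟩
  obtain ⟨u, hu, w, hw, huw⟩ := hA.2 (B.image Prod.fst) (by
    intro v hv
    exact (h1 _ ((hmem v).1 hv)).1) (by
    obtain ⟨x, hx⟩ := hne
    exact ⟨x.1, mem_image_of_mem _ hx⟩) (by
    intro h
    apply hBA
    refine subset_antisymm hB ?_
    intro x hx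
    rw [mem_product, mem_singleton] at hx
    rw [← h] at hx
    have := (hmem _).1 hx.1
    rw [← hx.2] at this
    exact this)
  rw [mem_sdiff] at hw
  exact ⟨(u, i), (hmem u).1 hu, (w, i), mem_sdiff.2 ⟨by simp [hw.1], fun h => hw.2 ((hmem w).2 h)⟩,
    Or.inl huw⟩

/-- attach many connected sets to one -/
lemma conn_attach_biUnion {α ι : Type} [DecidableEq α] [DecidableEq ι] {H : SimpleGraph α}
    {A : Finset α} (hA : Conn H A) (I : Finset ι) (Q : ι → Finset α)
    (hQ : ∀ e ∈ I, Conn H (Q e) ∧ AdjS H A (Q e)) : Conn H (A ∪ I.biUnion Q) := by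
  induction I using Finset.induction_on with
  | empty => simpa using hA
  | insert e I he ih =>
    have h1 := ih (fun f hf => hQ f (mem_insert_of_mem hf))
    have h2 := hQ e (mem_insert_self e I)
    have h3 : A ∪ (insert e I).biUnion Q = (A ∪ I.biUnion Q) ∪ Q e := by
      ext x
      simp only [mem_union, mem_biUnion, mem_insert]
      constructor
      · rintro (h | ⟨a, rfl | ha, hx⟩)
        · exact Or.inl (Or.inl h)
        · exact Or.inr hx
        · exact Or.inl (Or.inr ⟨a, ha, hx⟩)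
      · rintro ((h | ⟨a, ha, hx⟩) | h)
        · exact Or.inl h
        · exact Or.inr ⟨a, Or.inr ha, hx⟩
        · exact Or.inr ⟨e, Or.inl rfl, h⟩
    rw [h3]
    exact h1.union h2.1 (Or.inl (h2.2.mono subset_union_left subset_rfl))

lemma adj_levels {A B : Finset V} (h : ∃ v, v ∈ A ∧ v ∈ B) :
    AdjS (BU G) (A ×ˢ {false}) (B ×ˢ {true}) := by
  obtain ⟨v, hA, hB⟩ := h
  exact ⟨(v, false), by simp [hA], (v, true), by simp [hB], Or.inr ⟨rfl, by simp⟩⟩

/-- the sets of the crossbar -/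
def barA {ι : Type} {N : ℕ} (P : Fin N → Finset V) (I : Fin N → Finset ι)
    (Q : ι → Finset V) (i : Fin N) : Finset (V × Bool) :=
  (P i ×ˢ {false}) ∪ (I i).biUnion (fun e => Q e ×ˢ {true})

lemma mem_barA {ι : Type} {N : ℕ} {P : Fin N → Finset V} {I : Fin N → Finset ι}
    {Q : ι → Finset V} {i : Fin N} {x : V × Bool} :
    x ∈ barA P I Q i ↔ (x.1 ∈ P i ∧ x.2 = false) ∨ ∃ e ∈ I i, x.1 ∈ Q e ∧ x.2 = true := by
  unfold barA
  simp only [mem_union, mem_product, mem_singleton, mem_biUnion]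

lemma bar_build {ι : Type} [DecidableEq ι] {N : ℕ} (W : Finset V) (P : Fin N → Finset V)
    (I : Fin N → Finset ι) (Q : ι → Finset V)
    (hP : ∀ i, P i ⊆ W ∧ Conn G (P i)) (hPd : ∀ i j, i ≠ j → Disjoint (P i) (P j))
    (hI : ∀ i j, i ≠ j → ∀ e ∈ I i, ∀ e' ∈ I j, Disjoint (Q e) (Q e'))
    (hQ : ∀ i, ∀ e ∈ I i, Q e ⊆ W ∧ Conn G (Q e) ∧ ∃ v, v ∈ P i ∧ v ∈ Q e)
    (hadj : ∀ i j, i ≠ j → (∃ e ∈ I i, ∃ v, v ∈ P j ∧ v ∈ Q e) ∨
      (∃ e ∈ I j, ∃ v, v ∈ P i ∧ v ∈ Q e)) :
    (∀ i, Conn (BU G) (barA P I Q i) ∧ ∀ x ∈ barA P I Q i, x.1 ∈ W) ∧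
      (∀ i j, i ≠ j → Disjoint (barA P I Q i) (barA P I Q j) ∧
        AdjS (BU G) (barA P I Q i) (barA P I Q j)) := by
  refine ⟨fun i => ⟨?_, ?_⟩, fun i j hij => ⟨?_, ?_⟩⟩
  · refine conn_attach_biUnion (conn_lift (hP i).2 false) (I i) _ (fun e he => ?_)
    obtain ⟨_, h2, h3⟩ := hQ i e he
    exact ⟨conn_lift h2 true, adj_levels h3⟩
  · intro x hx
    rcases mem_barA.1 hx with h | ⟨e, he, hx, _⟩
    · exact (hP i).1 h.1
    · exact (hQ i e he).1 hx
  · rw [Finset.disjoint_left]
    intro x hx hx'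
    rcases mem_barA.1 hx with h | ⟨e, he, hxe, hb⟩ <;>
      rcases mem_barA.1 hx' with h' | ⟨e', he', hxe', hb'⟩
    · exact Finset.disjoint_left.1 (hPd i j hij) h.1 h'.1
    · rw [h.2] at hb'; cases hb'
    · rw [h'.2] at hb; cases hb
    · exact Finset.disjoint_left.1 (hI i j hij e he e' he') hxe hxe'
  · rcases hadj i j hij with ⟨e, he, h⟩ | ⟨e, he, h⟩
    · refine ((adj_levels (G := G) h).symm).mono ?_ ?_
      · intro x hx
        rw [mem_product, mem_singleton] at hx
        exact mem_barA.2 (Or.inr ⟨e, he, hx.1, hx.2⟩)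
      · intro x hx
        rw [mem_product, mem_singleton] at hx
        exact mem_barA.2 (Or.inl hx)
    · refine (adj_levels (G := G) h).mono ?_ ?_
      · intro x hx
        rw [mem_product, mem_singleton] at hx
        exact mem_barA.2 (Or.inl hx)
      · intro x hx
        rw [mem_product, mem_singleton] at hx
        exact mem_barA.2 (Or.inr ⟨e, he, hx.1, hx.2⟩)

end

/-- pairs -/
abbrev Prs (N : ℕ) : Type := {x : Fin N × Fin N // x.1 < x.2}

theorem xbar (h1 : ST_PATHR) (h2 : ST_BAS) (h3 : ST_LNK) (h4 : ST_SEL) (h5 : ST_RK1) :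
    ST_XBAR := by
  intro n N
  obtain ⟨n', hn', hn1⟩ : ∃ n', n ≤ n' ∧ 1 ≤ n' := ⟨max n 1, le_max_left _ _, le_max_right _ _⟩
  obtain ⟨s, hs⟩ := h4 (Fintype.card (Prs N)) (N * n' + N)
  obtain ⟨k, hsk, hnk⟩ : ∃ k, s ≤ k ∧ n' ≤ k := ⟨max s n', le_max_left _ _, le_max_right _ _⟩
  refine ⟨2 * (N * k), ?_⟩
  intro V _ _ G F W hW
  obtain ⟨P, hP, hPd⟩ := h1 V G F W (N * k) N k hW le_rfl (hn1.trans hnk)
  obtain ⟨-, r2, r3, -, r5, r6, -⟩ := h5 V G F W (N * k) hW
  choose Y hY1 hY2 hY3 using fun i => h2 V G F W (N * k) hW (P i) k (hP i).2.2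
  have hYW : ∀ i, Y i ⊆ W := fun i => (hY1 i).trans (hP i).1
  have hl := fun x : Prs N => h3 V G F W (N * k) k hW (Y x.1.1) (Y x.1.2) (hYW _) (hYW _)
    (hY2 _) (hY2 _) (hY3 _) (hY3 _)
  choose L hL hLd using hl
  -- sets of large rank meet the haven
  have hmeet : ∀ (i : Fin N) (X S : Finset V), n' ≤ rk G F W (N * k) X → S.card < n →
      ∃ v ∈ X, v ∈ bt G F W S := by
    intro i X S hX hS
    by_contra hcon
    push Not at hcon
    have hN : 1 ≤ N := by have := i.2; omega
    have hS2 : S.card ≤ 2 * (N * k) := by nlinarith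
    have hb := hW.isBt hS2
    have h6 := r6 X _ hb.big (by
      rw [Finset.disjoint_left]
      exact fun v hv hvX => hcon v hvX hv)
    have h7 := card_le_card hb.Nb_subset
    omega
  let eq := Fintype.equivFin (Prs N)
  obtain hc | hc := hs (Finset V) (fun A B => ¬ Disjoint A B)
    (fun A B h h' => h h'.symm) (fun e t => L (eq.symm e) (Fin.castLE hsk t))
  · obtain ⟨c, hc⟩ := hc
    classical
    let Q : Prs N → Finset V := fun x => L x (Fin.castLE hsk (c (eq x)))
    have hQd : ∀ x y : Prs N, x ≠ y → Disjoint (Q x) (Q y) := by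
      intro x y hxy
      have := hc (eq x) (eq y) (fun h => hxy (eq.injective h))
      simp only [not_not, Equiv.symm_apply_apply] at this
      exact this
    let I : Fin N → Finset (Prs N) := fun i => univ.filter (fun x => x.1.1 = i)
    have hb := bar_build (G := G) W P I Q (fun i => ⟨(hP i).1, (hP i).2.1⟩) hPd
      (by
        intro i j hij e he e' he'
        apply hQd
        rintro rfl
        simp only [I, mem_filter, mem_univ, true_and] at he he'
        exact hij (he.symm.trans he'))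
      (by
        intro i e he
        simp only [I, mem_filter, mem_univ, true_and] at he
        obtain ⟨g1, g2, g3, -⟩ := hL e (Fin.castLE hsk (c (eq e)))
        obtain ⟨v, hv⟩ := g3
        rw [mem_inter] at hv
        exact ⟨g1, g2, v, he ▸ hY1 _ hv.2, hv.1⟩)
      (by
        intro i j hij
        rcases lt_or_gt_of_ne hij with h | h
        · left
          obtain ⟨g1, g2, -, g3⟩ := hL ⟨(i, j), h⟩ (Fin.castLE hsk (c (eq ⟨(i, j), h⟩)))
          obtain ⟨v, hv⟩ := g3
          rw [mem_inter] at hv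
          exact ⟨⟨(i, j), h⟩, by simp [I], v, hY1 _ hv.2, hv.1⟩
        · right
          obtain ⟨g1, g2, -, g3⟩ := hL ⟨(j, i), h⟩ (Fin.castLE hsk (c (eq ⟨(j, i), h⟩)))
          obtain ⟨v, hv⟩ := g3
          rw [mem_inter] at hv
          exact ⟨⟨(j, i), h⟩, by simp [I], v, hY1 _ hv.2, hv.1⟩)
    refine ⟨barA P I Q, hb.1, hb.2, fun i S hS => ?_⟩
    obtain ⟨v, hv, hvb⟩ := hmeet i (P i) S (hnk.trans (hP i).2.2) hS
    exact ⟨(v, false), mem_barA.2 (Or.inl ⟨hv, rfl⟩), hvb⟩
  · obtain ⟨e, e', hee, u, v, hu, hv, hR⟩ := hc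
    set x := eq.symm e with hx
    set y := eq.symm e' with hy
    let Rw : Fin (N * n' + N) → Finset V := fun a => L x (Fin.castLE hsk (u a))
    let Cl : Fin (N * n' + N) → Finset V := fun b => L y (Fin.castLE hsk (v b))
    have hRd : ∀ a b, a ≠ b → Disjoint (Rw a) (Rw b) := by
      intro a b hab
      apply hLd x
      intro h
      exact hab (hu (Fin.castLE_injective hsk h))
    have hCd : ∀ a b, a ≠ b → Disjoint (Cl a) (Cl b) := by
      intro a b hab
      apply hLd y
      intro h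
      exact hab (hv (Fin.castLE_injective hsk h))
    have hRC : ∀ a b, ∃ w, w ∈ Rw a ∧ w ∈ Cl b := by
      intro a b
      have := hR a b
      rw [Finset.not_disjoint_iff] at this
      obtain ⟨w, hw1, hw2⟩ := this
      exact ⟨w, hw1, hw2⟩
    let P' : Fin N → Finset V := fun i => Rw (Fin.castLE (by omega) i)
    let I : Fin N → Finset (Fin (N * n' + N)) := fun i => univ.filter (fun b => b.1 / n' = i.1)
    have hidx : ∀ (i : Fin N) (t : ℕ), t < n' → i.1 * n' + t < N * n' + N := by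
      intro i t ht
      have := i.2
      nlinarith
    have hIm : ∀ (i : Fin N) (t : ℕ) (ht : t < n'),
        (⟨i.1 * n' + t, hidx i t ht⟩ : Fin (N * n' + N)) ∈ I i := by
      intro i t ht
      simp only [I, mem_filter, mem_univ, true_and]
      rw [Nat.div_eq_iff (by omega)]
      constructor <;> omega
    have hb := bar_build (G := G) W P' I Cl
      (fun i => ⟨(hL x _).1, (hL x _).2.1⟩)
      (by
        intro i j hij
        apply hRd
        intro h
        exact hij (Fin.castLE_injective _ h))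
      (by
        intro i j hij b hb b' hb'
        apply hCd
        rintro rfl
        simp only [I, mem_filter, mem_univ, true_and] at hb hb'
        exact hij (Fin.ext (hb.symm.trans hb')))
      (fun i b _ => ⟨(hL y _).1, (hL y _).2.1, hRC _ b⟩)
      (by
        intro i j hij
        left
        exact ⟨_, hIm i 0 (by omega), hRC _ _⟩)
    refine ⟨barA P' I Cl, hb.1, hb.2, fun i S hS => ?_⟩
    -- one element of `Y` in each of the `n'` columns
    have hch : ∀ t : Fin n', ∃ w, w ∈ Cl ⟨i.1 * n' + t.1, hidx i t.1 t.2⟩ ∧ w ∈ Y y.1.1 := by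
      intro t
      obtain ⟨w, hw⟩ := (hL y (Fin.castLE hsk (v ⟨i.1 * n' + t.1, hidx i t.1 t.2⟩))).2.2.1
      rw [mem_inter] at hw
      exact ⟨w, hw.1, hw.2⟩
    choose w hw1 hw2 using hch
    have hwinj : Function.Injective w := by
      intro t t' htt
      by_contra hne
      have h8 : (⟨i.1 * n' + t.1, hidx i t.1 t.2⟩ : Fin (N * n' + N)) ≠
          ⟨i.1 * n' + t'.1, hidx i t'.1 t'.2⟩ := by
        intro h
        apply hne
        have := congrArg Fin.val h
        simp only at this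
        exact Fin.ext (by omega)
      have h9 := Finset.disjoint_left.1 (hCd _ _ h8) (hw1 t)
      rw [htt] at h9
      exact h9 (hw1 t')
    let Y2 : Finset V := univ.image w
    have hY2c : Y2.card = n' := by
      rw [card_image_of_injective _ hwinj, card_univ, Fintype.card_fin]
    have hY2s : Y2 ⊆ Y y.1.1 := by
      intro z hz
      obtain ⟨t, -, rfl⟩ := mem_image.1 hz
      exact hw2 t
    have hrk : n' ≤ rk G F W (N * k) Y2 := by
      have g1 := r5 Y2 (Y y.1.1 \ Y2)
      have g2 : Y2 ∪ (Y y.1.1 \ Y2) = Y y.1.1 := union_sdiff_of_subset hY2s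
      rw [g2, hY3] at g1
      have g3 := r2 (Y y.1.1 \ Y2)
      rw [card_sdiff_of_subset hY2s, hY2, hY2c] at g3
      omega
    obtain ⟨z, hz, hzb⟩ := hmeet i Y2 S hrk hS
    obtain ⟨t, -, rfl⟩ := mem_image.1 hz
    exact ⟨(w t, true), mem_barA.2 (Or.inr ⟨_, hIm i t.1 t.2, hw1 t, rfl⟩), hzb⟩

theorem st_XBAR (h1 : ST_PATHR) (h2 : ST_BAS) (h3 : ST_LNK) (h4 : ST_SEL) (h5 : ST_RK1) :
    ST_XBAR := xbar h1 h2 h3 h4 h5

end ErdPos
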